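import Mathlib
import Pool.Agent.TH277.HT.Pl
set_option autoImplicit false
set_option linter.unusedSectionVars false
set_option linter.style.haveILetI false

/-! The one dimensional extension operator on Hilbert space valued functions. -/

namespace Pool.Agent.TH277.HT

open MeasureTheory Set Complex FourierTransform
open scoped ENNReal NNReal

/-- the character `e^{2πiθ}` -/
noncomputable def ch (θ : ℝ) : ℂ := cexp (2 * Real.pi * I * (θ : ℂ))

lemma ch_norm (θ : ℝ) : ‖ch θ‖ = 1 := by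
  unfold ch
  rw [show 2 * (Real.pi : ℂ) * I * (θ : ℂ) = ((2 * Real.pi * θ : ℝ) : ℂ) * I by push_cast; ring]
  exact norm_exp_ofReal_mul_I _

lemma ch_enorm (θ : ℝ) : ‖ch θ‖ₑ = 1 := by
  rw [← ofReal_norm, ch_norm, ENNReal.ofReal_one]

lemma ch_add (a b : ℝ) : ch (a + b) = ch a * ch b := by
  unfold ch
  rw [← Complex.exp_add]
  congr 1
  push_cast
  ring

lemma ch_conj (a : ℝ) : (starRingEnd ℂ) (ch a) = ch (-a) := by
  unfold ch
  rw [← Complex.exp_conj]
  congr 1
  have h2 : (starRingEnd ℂ) 2 = 2 := by norm_num [Complex.ext_iff]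
  simp [h2]

lemma ch_cont : Continuous ch := by
  unfold ch
  fun_prop

section

variable {F : Type*} [NormedAddCommGroup F] [InnerProductSpace ℂ F] [CompleteSpace F]

/-- Plancherel's theorem on the line. -/
lemma planch1 (φ : ℝ → F) (h1 : Integrable φ) (h2 : MemLp φ 2) :
    ∫⁻ x : ℝ, ‖∫ u : ℝ, ch (u * x) • φ u‖ₑ ^ 2 = ∫⁻ u, ‖φ u‖ₑ ^ 2 := by
  have h := plancherel φ h1 h2
  rw [← h, ← lintegral_neg_eq_self (fun ξ => ‖𝓕 φ ξ‖ₑ ^ 2)]
  apply lintegral_congr
  intro x
  congr 2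
  rw [Real.fourier_eq]
  apply integral_congr_ae
  refine ae_of_all _ fun u => ?_
  simp only
  rw [Circle.smul_def, Real.fourierChar_apply]
  congr 1
  unfold ch
  congr 1
  simp only [RCLike.inner_apply, conj_trivial]
  push_cast
  ring

end

variable {H : Type} [NormedAddCommGroup H] [InnerProductSpace ℂ H] [CompleteSpace H]

/-- measurable functions with values in the unit ball -/
structure Adm (a : ℝ → H) : Prop where
  meas : StronglyMeasurable a
  bd : ∀ u, ‖a u‖ ≤ 1

/-- the truncation to `[-1,1]` -/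
noncomputable def tr (a : ℝ → H) : ℝ → H := (Icc (-1 : ℝ) 1).indicator a

lemma tr_meas {a : ℝ → H} (ha : Adm a) : StronglyMeasurable (tr a) :=
  ha.meas.indicator measurableSet_Icc

lemma tr_bd {a : ℝ → H} (ha : Adm a) (u : ℝ) : ‖tr a u‖ ≤ 1 := by
  unfold tr
  by_cases h : u ∈ Icc (-1 : ℝ) 1
  · rw [indicator_of_mem h]
    exact ha.bd u
  · rw [indicator_of_notMem h, norm_zero]
    exact zero_le_one

lemma tr_zero (a : ℝ → H) {u : ℝ} (h : u ∉ Icc (-1 : ℝ) 1) : tr a u = 0 :=
  indicator_of_notMem h _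

/-- the one dimensional extension operator -/
noncomputable def E1 (a : ℝ → H) (x t : ℝ) : H :=
  ∫ u in Icc (-1 : ℝ) 1, ch (u * x + u ^ 2 * t) • a u

lemma E1_eq (a : ℝ → H) (x t : ℝ) : E1 a x t = ∫ u, ch (u * x + u ^ 2 * t) • tr a u := by
  unfold E1 tr
  rw [← integral_indicator measurableSet_Icc]
  apply integral_congr_ae
  refine ae_of_all _ fun u => ?_
  simp only
  by_cases h : u ∈ Icc (-1 : ℝ) 1
  · rw [indicator_of_mem h, indicator_of_mem h]
  · rw [indicator_of_notMem h, indicator_of_notMem h, smul_zero]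

lemma bdd_int {a : ℝ → H} (ha : StronglyMeasurable a) (C : ℝ) (hb : ∀ u, ‖a u‖ ≤ C)
    (h0 : ∀ u, u ∉ Icc (-1 : ℝ) 1 → a u = 0) : Integrable a := by
  have h1 : IntegrableOn a (Icc (-1 : ℝ) 1) := by
    apply IntegrableOn.of_bound _ ha.aestronglyMeasurable C (ae_of_all _ hb)
    rw [Real.volume_Icc]
    exact ENNReal.ofReal_lt_top
  rwa [integrableOn_iff_integrable_of_support_subset] at h1
  intro u hu
  by_contra hc
  exact hu (h0 u hc)

lemma bdd_L2 {a : ℝ → H} (ha : StronglyMeasurable a) (C : ℝ) (hb : ∀ u, ‖a u‖ ≤ C)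
    (h0 : ∀ u, u ∉ Icc (-1 : ℝ) 1 → a u = 0) : MemLp a 2 := by
  have h1 : MemLp a 2 (volume.restrict (Icc (-1 : ℝ) 1)) := by
    haveI : IsFiniteMeasure (volume.restrict (Icc (-1 : ℝ) 1)) := ⟨by
      rw [Measure.restrict_apply_univ, Real.volume_Icc]
      exact ENNReal.ofReal_lt_top⟩
    exact MemLp.of_bound ha.aestronglyMeasurable C (ae_of_all _ hb)
  have h2 : (Icc (-1 : ℝ) 1).indicator a = a := by
    ext u
    by_cases h : u ∈ Icc (-1 : ℝ) 1
    · rw [indicator_of_mem h]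
    · rw [indicator_of_notMem h, h0 u h]
  rw [← h2]
  exact (memLp_indicator_iff_restrict measurableSet_Icc).2 h1

lemma E1_le {a : ℝ → H} (ha : Adm a) (x t : ℝ) : ‖E1 a x t‖ ≤ 2 := by
  unfold E1
  calc ‖∫ u in Icc (-1 : ℝ) 1, ch (u * x + u ^ 2 * t) • a u‖
      ≤ 1 * (volume (Icc (-1 : ℝ) 1)).toReal := by
        apply norm_setIntegral_le_of_norm_le_const
        · rw [Real.volume_Icc]
          exact ENNReal.ofReal_lt_top
        · intro u _
          rw [norm_smul, ch_norm, one_mul]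
          exact ha.bd u
    _ = 2 := by
        rw [Real.volume_Icc, ENNReal.toReal_ofReal (by norm_num)]
        norm_num

lemma E1_meas {a : ℝ → H} (ha : Adm a) :
    StronglyMeasurable fun p : ℝ × ℝ => E1 a p.1 p.2 := by
  have h1 : StronglyMeasurable (Function.uncurry fun (p : ℝ × ℝ) (u : ℝ) =>
      ch (u * p.1 + u ^ 2 * p.2) • tr a u) := by
    apply StronglyMeasurable.smul
    · have h2 : Continuous fun q : (ℝ × ℝ) × ℝ => ch (q.2 * q.1.1 + q.2 ^ 2 * q.1.2) :=
        ch_cont.comp (by fun_prop)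
      exact h2.stronglyMeasurable
    · exact (tr_meas ha).comp_measurable measurable_snd
  have h3 := h1.integral_prod_right (ν := (volume : Measure ℝ))
  have h4 : (fun p : ℝ × ℝ => E1 a p.1 p.2) =
      fun p => ∫ u, (fun (p : ℝ × ℝ) (u : ℝ) => ch (u * p.1 + u ^ 2 * p.2) • tr a u) p u := by
    ext p
    exact E1_eq a p.1 p.2
  rw [h4]
  exact h3

lemma E1_planch {a : ℝ → H} (ha : Adm a) (t : ℝ) : ∫⁻ x : ℝ, ‖E1 a x t‖ₑ ^ 2 ≤ 2 := by
  set φ : ℝ → H := fun u => ch (u ^ 2 * t) • tr a u with hφ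
  have hm : StronglyMeasurable φ := by
    apply StronglyMeasurable.smul
    · have h2 : Continuous fun u : ℝ => ch (u ^ 2 * t) := ch_cont.comp (by fun_prop)
      exact h2.stronglyMeasurable
    · exact tr_meas ha
  have hn : ∀ u, ‖φ u‖ = ‖tr a u‖ := by
    intro u
    rw [hφ]
    simp only
    rw [norm_smul, ch_norm, one_mul]
  have hb : ∀ u, ‖φ u‖ ≤ 1 := fun u => by
    rw [hn u]
    exact tr_bd ha u
  have h0 : ∀ u, u ∉ Icc (-1 : ℝ) 1 → φ u = 0 := by
    intro u hu
    rw [hφ]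
    simp only
    rw [tr_zero a hu, smul_zero]
  have h1 := planch1 φ (bdd_int hm 1 hb h0) (bdd_L2 hm 1 hb h0)
  have h2 : ∀ x, E1 a x t = ∫ u : ℝ, ch (u * x) • φ u := by
    intro x
    rw [E1_eq]
    apply integral_congr_ae
    refine ae_of_all _ fun u => ?_
    simp only [hφ]
    rw [smul_smul, ← ch_add]
  simp only [h2]
  rw [h1]
  calc ∫⁻ u, ‖φ u‖ₑ ^ 2 ≤ ∫⁻ u, (Icc (-1 : ℝ) 1).indicator (fun _ => 1) u := by
        apply lintegral_mono
        intro u
        simp only
        by_cases h : u ∈ Icc (-1 : ℝ) 1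
        · rw [indicator_of_mem h]
          have h3 : ‖φ u‖ₑ ≤ 1 := by
            rw [← ofReal_norm]
            exact ENNReal.ofReal_le_one.2 (hb u)
          calc ‖φ u‖ₑ ^ 2 ≤ 1 ^ 2 := by gcongr
            _ = 1 := one_pow 2
        · rw [indicator_of_notMem h, h0 u h, enorm_zero]
          simp
    _ = 2 := by
        rw [lintegral_indicator measurableSet_Icc, setLIntegral_one, Real.volume_Icc]
        norm_num

end Pool.Agent.TH277.HT
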