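import Mathlib
import Pool.Agent.TH277.HT.A
set_option autoImplicit false
set_option linter.unusedSectionVars false

/-! The `L^q`, `q > 4`, bound for the one dimensional extension operator on Hilbert space valued
functions. -/

namespace Pool.Agent.TH277.HT

open MeasureTheory Set Complex FourierTransform
open scoped ENNReal NNReal

variable {H : Type} [NormedAddCommGroup H] [InnerProductSpace ℂ H] [CompleteSpace H]

lemma int_of_supp {F : Type*} [NormedAddCommGroup F] {a : ℝ → F} (ha : StronglyMeasurable a)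
    (R C : ℝ) (hb : ∀ u, ‖a u‖ ≤ C) (h0 : ∀ u, R < |u| → a u = 0) : Integrable a := by
  have h1 : IntegrableOn a (Icc (-R) R) := by
    apply IntegrableOn.of_bound _ ha.aestronglyMeasurable C (ae_of_all _ hb)
    rw [Real.volume_Icc]
    exact ENNReal.ofReal_lt_top
  rwa [integrableOn_iff_integrable_of_support_subset] at h1
  intro u hu
  by_contra hc
  apply hu
  apply h0
  by_contra h
  exact hc (abs_le.1 (not_lt.1 h))

lemma L2_of_supp {F : Type*} [NormedAddCommGroup F] {a : ℝ → F} (ha : StronglyMeasurable a)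
    (R C : ℝ) (hb : ∀ u, ‖a u‖ ≤ C) (h0 : ∀ u, R < |u| → a u = 0) : MemLp a 2 := by
  have hfin : IsFiniteMeasure (volume.restrict (Icc (-R) R)) := ⟨by
    rw [Measure.restrict_apply_univ, Real.volume_Icc]
    exact ENNReal.ofReal_lt_top⟩
  have h1 : MemLp a 2 (volume.restrict (Icc (-R) R)) :=
    MemLp.of_bound ha.aestronglyMeasurable C (ae_of_all _ hb)
  have h2 : (Icc (-R) R).indicator a = a := by
    ext u
    by_cases h : u ∈ Icc (-R) R
    · rw [indicator_of_mem h]
    · rw [indicator_of_notMem h, h0 u]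
      by_contra h3
      exact h (abs_le.1 (not_lt.1 h3))
  rw [← h2]
  exact (memLp_indicator_iff_restrict measurableSet_Icc).2 h1

/-- the kernel `⟨a(v), a(u)⟩` -/
noncomputable def ker (a : ℝ → H) (v u : ℝ) : ℂ := inner ℂ (tr a v) (tr a u)

lemma ker_meas {a : ℝ → H} (ha : Adm a) : StronglyMeasurable fun p : ℝ × ℝ => ker a p.1 p.2 := by
  unfold ker
  exact ((tr_meas ha).comp_measurable measurable_fst).inner
    ((tr_meas ha).comp_measurable measurable_snd)

lemma ker_le {a : ℝ → H} (ha : Adm a) (v u : ℝ) : ‖ker a v u‖ ≤ 1 := by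
  unfold ker
  refine (norm_inner_le_norm _ _).trans ?_
  calc ‖tr a v‖ * ‖tr a u‖ ≤ 1 * 1 :=
        mul_le_mul (tr_bd ha v) (tr_bd ha u) (norm_nonneg _) zero_le_one
    _ = 1 := one_mul 1

lemma ker_zero1 (a : ℝ → H) {v u : ℝ} (h : v ∉ Icc (-1 : ℝ) 1) : ker a v u = 0 := by
  unfold ker
  rw [tr_zero a h, inner_zero_left]

lemma ker_zero2 (a : ℝ → H) {v u : ℝ} (h : u ∉ Icc (-1 : ℝ) 1) : ker a v u = 0 := by
  unfold ker
  rw [tr_zero a h, inner_zero_right]

lemma ker_zero3 (a : ℝ → H) {v α : ℝ} (h : 2 < |α|) : ker a v (v + α) = 0 := by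
  by_cases h1 : v ∈ Icc (-1 : ℝ) 1
  · apply ker_zero2
    intro h2
    rw [lt_abs] at h
    rcases h with h | h
    · linarith [h1.1, h2.2]
    · linarith [h1.2, h2.1]
  · exact ker_zero1 a h1

/-- the function `W(α, τ) = ∫ e(vτ) k(v, v + α) dv` -/
noncomputable def W (a : ℝ → H) (α τ : ℝ) : ℂ := ∫ v, ch (v * τ) • ker a v (v + α)

lemma W_meas {a : ℝ → H} (ha : Adm a) : StronglyMeasurable fun p : ℝ × ℝ => W a p.1 p.2 := by
  have h1 : StronglyMeasurable (Function.uncurry fun (p : ℝ × ℝ) (v : ℝ) =>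
      ch (v * p.2) • ker a v (v + p.1)) := by
    refine StronglyMeasurable.smul (f := fun q : (ℝ × ℝ) × ℝ => ch (q.2 * q.1.2))
      (g := fun q : (ℝ × ℝ) × ℝ => ker a q.2 (q.2 + q.1.1)) ?_ ?_
    · have h2 : Continuous fun q : (ℝ × ℝ) × ℝ => ch (q.2 * q.1.2) := ch_cont.comp (by fun_prop)
      exact h2.stronglyMeasurable
    · have h3 : Measurable fun q : (ℝ × ℝ) × ℝ => ((q.2, q.2 + q.1.1) : ℝ × ℝ) := by fun_prop
      exact (ker_meas ha).comp_measurable h3
  exact h1.integral_prod_right (ν := (volume : Measure ℝ))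

lemma kerv_meas {a : ℝ → H} (ha : Adm a) (α : ℝ) :
    StronglyMeasurable fun v : ℝ => ker a v (v + α) := by
  have h3 : Measurable fun v : ℝ => ((v, v + α) : ℝ × ℝ) := by fun_prop
  exact (ker_meas ha).comp_measurable h3

lemma kerv_zero {a : ℝ → H} (α : ℝ) (v : ℝ) (h : 1 < |v|) : ker a v (v + α) = 0 := by
  apply ker_zero1
  intro h2
  exact absurd (abs_le.2 h2) (not_le.2 h)

lemma W_le {a : ℝ → H} (ha : Adm a) (α τ : ℝ) : ‖W a α τ‖ ≤ 2 := by
  have h1 : W a α τ = ∫ v in Icc (-1 : ℝ) 1, ch (v * τ) • ker a v (v + α) := by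
    unfold W
    symm
    apply setIntegral_eq_integral_of_forall_compl_eq_zero
    intro v hv
    rw [ker_zero1 a hv, smul_zero]
  rw [h1]
  calc ‖∫ v in Icc (-1 : ℝ) 1, ch (v * τ) • ker a v (v + α)‖
      ≤ 1 * (volume (Icc (-1 : ℝ) 1)).toReal := by
        apply norm_setIntegral_le_of_norm_le_const
        · rw [Real.volume_Icc]
          exact ENNReal.ofReal_lt_top
        · intro u _
          rw [norm_smul, ch_norm, one_mul]
          exact ker_le ha _ _
    _ = 2 := by
        rw [Real.volume_Icc, ENNReal.toReal_ofReal (by norm_num)]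
        norm_num

lemma W_zero {a : ℝ → H} {α : ℝ} (h : 2 < |α|) (τ : ℝ) : W a α τ = 0 := by
  unfold W
  simp only [ker_zero3 a h, smul_zero, integral_zero]

lemma W_planch {a : ℝ → H} (ha : Adm a) (α : ℝ) : ∫⁻ τ : ℝ, ‖W a α τ‖ₑ ^ 2 ≤ 2 := by
  unfold W
  rw [planch1 _ (int_of_supp (kerv_meas ha α) 1 1 (fun v => ker_le ha _ _) (kerv_zero α))
    (L2_of_supp (kerv_meas ha α) 1 1 (fun v => ker_le ha _ _) (kerv_zero α))]
  calc ∫⁻ v, ‖ker a v (v + α)‖ₑ ^ 2 ≤ ∫⁻ v, (Icc (-1 : ℝ) 1).indicator (fun _ => 1) v := by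
        apply lintegral_mono
        intro u
        simp only
        by_cases h : u ∈ Icc (-1 : ℝ) 1
        · rw [indicator_of_mem h]
          have h3 : ‖ker a u (u + α)‖ₑ ≤ 1 := by
            rw [← ofReal_norm]
            exact ENNReal.ofReal_le_one.2 (ker_le ha _ _)
          calc ‖ker a u (u + α)‖ₑ ^ 2 ≤ 1 ^ 2 := by gcongr
            _ = 1 := one_pow 2
        · rw [indicator_of_notMem h, ker_zero1 a h, enorm_zero]
          simp
    _ = 2 := by
        rw [lintegral_indicator measurableSet_Icc, setLIntegral_one, Real.volume_Icc]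
        norm_num

/-- scaling of the time -/
lemma lint_mul (c : ℝ) (hc : c ≠ 0) (f : ℝ → ℝ≥0∞) :
    ∫⁻ t, f (c * t) = ENNReal.ofReal |c⁻¹| * ∫⁻ t, f t := by
  have h1 := Real.map_volume_mul_left hc
  have h2 : MeasurableEmbedding (fun t : ℝ => c * t) :=
    (Homeomorph.mulLeft₀ c hc).measurableEmbedding
  rw [← h2.lintegral_map, h1, lintegral_smul_measure, smul_eq_mul]

/-- the function whose Fourier transform in `α` is `|E1|²` -/
noncomputable def PP (a : ℝ → H) (α t : ℝ) : ℂ := ch (α ^ 2 * t) * W a α (2 * α * t)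

lemma PP_meas {a : ℝ → H} (ha : Adm a) : StronglyMeasurable fun p : ℝ × ℝ => PP a p.1 p.2 := by
  unfold PP
  apply StronglyMeasurable.mul
  · have h2 : Continuous fun p : ℝ × ℝ => ch (p.1 ^ 2 * p.2) := ch_cont.comp (by fun_prop)
    exact h2.stronglyMeasurable
  · have h3 : Measurable fun p : ℝ × ℝ => ((p.1, 2 * p.1 * p.2) : ℝ × ℝ) := by fun_prop
    exact (W_meas ha).comp_measurable h3

lemma PP_norm (a : ℝ → H) (α t : ℝ) : ‖PP a α t‖ = ‖W a α (2 * α * t)‖ := by
  unfold PP
  rw [norm_mul, ch_norm, one_mul]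

lemma PP_le {a : ℝ → H} (ha : Adm a) (α t : ℝ) : ‖PP a α t‖ ≤ 2 := by
  rw [PP_norm]
  exact W_le ha _ _

lemma PP_zero {a : ℝ → H} {α : ℝ} (h : 2 < |α|) (t : ℝ) : PP a α t = 0 := by
  unfold PP
  rw [W_zero h, mul_zero]

lemma PP_time {a : ℝ → H} (ha : Adm a) {α : ℝ} (hα : α ≠ 0) :
    ∫⁻ t : ℝ, ‖PP a α t‖ₑ ^ 2 ≤ ENNReal.ofReal (|α|⁻¹) := by
  have h1 : ∀ t, ‖PP a α t‖ₑ ^ 2 = (fun τ => ‖W a α τ‖ₑ ^ 2) ((2 * α) * t) := by
    intro t
    simp only
    rw [← ofReal_norm, PP_norm, ofReal_norm]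
  simp only [h1]
  rw [lint_mul (2 * α) (by simpa using hα) (fun τ => ‖W a α τ‖ₑ ^ 2)]
  calc ENNReal.ofReal |(2 * α)⁻¹| * ∫⁻ τ, ‖W a α τ‖ₑ ^ 2 ≤ ENNReal.ofReal |(2 * α)⁻¹| * 2 := by
        gcongr
        exact W_planch ha α
    _ = ENNReal.ofReal |(2 * α)⁻¹| * ENNReal.ofReal 2 := by norm_num
    _ = ENNReal.ofReal (|α|⁻¹) := by
        rw [← ENNReal.ofReal_mul (abs_nonneg _)]
        congr 1
        rw [abs_inv, abs_mul, abs_of_pos (two_pos : (0 : ℝ) < 2), mul_inv]
        ring

/-- The identity `|E1|² = ∫ e(αx) P(α, t) dα`. -/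
lemma E1_sq {a : ℝ → H} (ha : Adm a) (x t : ℝ) :
    ((‖E1 a x t‖ ^ 2 : ℝ) : ℂ) = ∫ α : ℝ, ch (α * x) * PP a α t := by
  have hi : ∀ y s : ℝ, Integrable fun u : ℝ => ch (u * y + u ^ 2 * s) • tr a u := by
    intro y s
    apply int_of_supp _ 1 1
    · intro u
      rw [norm_smul, ch_norm, one_mul]
      exact tr_bd ha u
    · intro u hu
      rw [tr_zero a (fun h => absurd (abs_le.2 h) (not_le.2 hu)), smul_zero]
    · apply StronglyMeasurable.smul
      · have h2 : Continuous fun u : ℝ => ch (u * y + u ^ 2 * s) := ch_cont.comp (by fun_prop)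
        exact h2.stronglyMeasurable
      · exact tr_meas ha
  -- the double integral
  have h1 : ((‖E1 a x t‖ ^ 2 : ℝ) : ℂ) = ∫ v : ℝ, ∫ u : ℝ,
      ch ((u - v) * x + (u ^ 2 - v ^ 2) * t) * ker a v u := by
    have h2 : ((‖E1 a x t‖ ^ 2 : ℝ) : ℂ) = inner ℂ (E1 a x t) (E1 a x t) := by
      rw [inner_self_eq_norm_sq_to_K]
      norm_cast
    rw [h2]
    have h3 : inner ℂ (E1 a x t) (E1 a x t) =
        (starRingEnd ℂ) (inner ℂ (E1 a x t) (E1 a x t)) := by
      rw [inner_conj_symm]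
    rw [h3]
    conv_lhs => rw [E1_eq a x t]
    rw [← integral_inner (hi x t), ← integral_conj]
    apply integral_congr_ae
    refine ae_of_all _ fun v => ?_
    simp only
    rw [inner_conj_symm, ← integral_inner (hi x t)]
    apply integral_congr_ae
    refine ae_of_all _ fun u => ?_
    simp only
    rw [inner_smul_left, inner_smul_right, ch_conj]
    unfold ker
    rw [← mul_assoc, ← ch_add]
    congr 2
    ring
  rw [h1]
  -- the change of variables u = v + α
  have h4 : ∀ v : ℝ, ∫ u : ℝ, ch ((u - v) * x + (u ^ 2 - v ^ 2) * t) * ker a v u =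
      ∫ α : ℝ, ch (α * x) * (ch (α ^ 2 * t) * (ch (v * (2 * α * t)) * ker a v (v + α))) := by
    intro v
    rw [← integral_add_left_eq_self _ v]
    apply integral_congr_ae
    refine ae_of_all _ fun α => ?_
    simp only
    rw [← mul_assoc, ← mul_assoc, ← ch_add, ← ch_add]
    congr 2
    ring
  simp only [h4]
  have h5 : Integrable (Function.uncurry fun v α : ℝ =>
      ch (α * x) * (ch (α ^ 2 * t) * (ch (v * (2 * α * t)) * ker a v (v + α))))
      ((volume : Measure ℝ).prod volume) := by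
    have hm : StronglyMeasurable (Function.uncurry fun v α : ℝ =>
        ch (α * x) * (ch (α ^ 2 * t) * (ch (v * (2 * α * t)) * ker a v (v + α)))) := by
      apply StronglyMeasurable.mul
      · exact (ch_cont.comp (by fun_prop : Continuous fun p : ℝ × ℝ => p.2 * x)).stronglyMeasurable
      apply StronglyMeasurable.mul
      · exact (ch_cont.comp
          (by fun_prop : Continuous fun p : ℝ × ℝ => p.2 ^ 2 * t)).stronglyMeasurable
      apply StronglyMeasurable.mul
      · exact (ch_cont.comp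
          (by fun_prop : Continuous fun p : ℝ × ℝ => p.1 * (2 * p.2 * t))).stronglyMeasurable
      · have h3 : Measurable fun p : ℝ × ℝ => ((p.1, p.1 + p.2) : ℝ × ℝ) := by fun_prop
        exact (ker_meas ha).comp_measurable h3
    have hb : IntegrableOn (Function.uncurry fun v α : ℝ =>
        ch (α * x) * (ch (α ^ 2 * t) * (ch (v * (2 * α * t)) * ker a v (v + α))))
        (Icc (-1 : ℝ) 1 ×ˢ Icc (-2 : ℝ) 2) ((volume : Measure ℝ).prod volume) := by
      apply IntegrableOn.of_bound _ hm.aestronglyMeasurable 1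
      · refine ae_of_all _ fun p => ?_
        simp only [Function.uncurry]
        rw [norm_mul, norm_mul, norm_mul, ch_norm, ch_norm, ch_norm, one_mul, one_mul, one_mul]
        exact ker_le ha _ _
      · rw [Measure.prod_prod, Real.volume_Icc, Real.volume_Icc]
        exact ENNReal.mul_lt_top ENNReal.ofReal_lt_top ENNReal.ofReal_lt_top
    rwa [integrableOn_iff_integrable_of_support_subset] at hb
    intro p hp
    by_contra hc
    apply hp
    simp only [Function.uncurry]
    have h6 : ker a p.1 (p.1 + p.2) = 0 := by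
      by_cases h7 : p.1 ∈ Icc (-1 : ℝ) 1
      · by_cases h8 : p.2 ∈ Icc (-2 : ℝ) 2
        · exact absurd (mk_mem_prod h7 h8) hc
        · apply ker_zero3
          by_contra h9
          exact h8 (abs_le.1 (not_lt.1 h9))
      · exact ker_zero1 a h7
    rw [h6, mul_zero, mul_zero, mul_zero]
  rw [integral_integral_swap h5]
  apply integral_congr_ae
  refine ae_of_all _ fun α => ?_
  simp only
  rw [integral_const_mul, integral_const_mul]
  unfold PP W
  simp only [smul_eq_mul]

end Pool.Agent.TH277.HT
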