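import Mathlib
import Pool.Agent.TH277.HT.B
set_option autoImplicit false
set_option linter.unusedSectionVars false

/-! The `L^q`, `q > 4`, bound for the one dimensional extension operator on Hilbert space valued
functions: the level set argument. -/

namespace Pool.Agent.TH277.HT

open MeasureTheory Set Complex
open scoped ENNReal NNReal

variable {H : Type} [NormedAddCommGroup H] [InnerProductSpace ℂ H] [CompleteSpace H]

attribute [local irreducible] PP W E1

/-- the set `|α| > δ` -/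
def far (δ : ℝ) : Set ℝ := {α | δ < |α|}

lemma far_meas (δ : ℝ) : MeasurableSet (far δ) := measurableSet_lt measurable_const (by fun_prop)

/-- the far part of `|E1|²` -/
noncomputable def G2 (a : ℝ → H) (δ x t : ℝ) : ℂ :=
  ∫ α : ℝ, ch (α * x) • (far δ).indicator (fun α => PP a α t) α

lemma PPt_meas {a : ℝ → H} (ha : Adm a) (t : ℝ) : StronglyMeasurable fun α : ℝ => PP a α t :=
  (PP_meas ha).comp_measurable (by fun_prop : Measurable fun α : ℝ => ((α, t) : ℝ × ℝ))

lemma ind_meas {a : ℝ → H} (ha : Adm a) (δ t : ℝ) :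
    StronglyMeasurable ((far δ).indicator fun α => PP a α t) :=
  (PPt_meas ha t).indicator (far_meas δ)

lemma ind_le {a : ℝ → H} (ha : Adm a) (δ t α : ℝ) :
    ‖(far δ).indicator (fun α => PP a α t) α‖ ≤ 2 := by
  by_cases h : α ∈ far δ
  · rw [indicator_of_mem h]
    exact PP_le ha α t
  · rw [indicator_of_notMem h, norm_zero]
    norm_num

lemma ind_zero {a : ℝ → H} (δ t α : ℝ) (h : 2 < |α|) :
    (far δ).indicator (fun α => PP a α t) α = 0 := by
  by_cases h1 : α ∈ far δ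
  · rw [indicator_of_mem h1]
    exact PP_zero h t
  · exact indicator_of_notMem h1 _

lemma G2_planch {a : ℝ → H} (ha : Adm a) (δ t : ℝ) :
    ∫⁻ x : ℝ, ‖G2 a δ x t‖ₑ ^ 2 = ∫⁻ α, ‖(far δ).indicator (fun α => PP a α t) α‖ₑ ^ 2 := by
  unfold G2
  exact planch1 _ (int_of_supp (ind_meas ha δ t) 2 2 (ind_le ha δ t) (ind_zero δ t))
    (L2_of_supp (ind_meas ha δ t) 2 2 (ind_le ha δ t) (ind_zero δ t))

lemma G2_meas {a : ℝ → H} (ha : Adm a) (δ : ℝ) :
    StronglyMeasurable fun p : ℝ × ℝ => G2 a δ p.1 p.2 := by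
  have h1 : StronglyMeasurable (Function.uncurry fun (p : ℝ × ℝ) (α : ℝ) =>
      ch (α * p.1) • (far δ).indicator (fun α => PP a α p.2) α) := by
    refine StronglyMeasurable.smul (f := fun q : (ℝ × ℝ) × ℝ => ch (q.2 * q.1.1))
      (g := fun q : (ℝ × ℝ) × ℝ => (far δ).indicator (fun α => PP a α q.1.2) q.2) ?_ ?_
    · exact (ch_cont.comp
        (by fun_prop : Continuous fun q : (ℝ × ℝ) × ℝ => q.2 * q.1.1)).stronglyMeasurable
    · have h2 : (fun q : (ℝ × ℝ) × ℝ => (far δ).indicator (fun α => PP a α q.1.2) q.2) =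
          ({q : (ℝ × ℝ) × ℝ | q.2 ∈ far δ}).indicator fun q => PP a q.2 q.1.2 := by
        ext q
        by_cases h : q.2 ∈ far δ
        · rw [indicator_of_mem h, indicator_of_mem (show q ∈ {q : (ℝ × ℝ) × ℝ | q.2 ∈ far δ} from h)]
        · rw [indicator_of_notMem h,
            indicator_of_notMem (show q ∉ {q : (ℝ × ℝ) × ℝ | q.2 ∈ far δ} from h)]
      rw [h2]
      apply StronglyMeasurable.indicator
      · exact (PP_meas ha).comp_measurable
          (by fun_prop : Measurable fun q : (ℝ × ℝ) × ℝ => ((q.2, q.1.2) : ℝ × ℝ))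
      · exact measurable_snd (far_meas δ)
  exact h1.integral_prod_right (ν := (volume : Measure ℝ))

/-- splitting off the far part -/
lemma E1_sq_le {a : ℝ → H} (ha : Adm a) {δ : ℝ} (hδ : 0 < δ) (x t : ℝ) :
    ‖E1 a x t‖ ^ 2 ≤ 4 * δ + ‖G2 a δ x t‖ := by
  have h0 : Integrable fun α : ℝ => ch (α * x) * PP a α t := by
    apply int_of_supp _ 2 2
    · intro α
      rw [norm_mul, ch_norm, one_mul]
      exact PP_le ha α t
    · intro α h
      rw [PP_zero h t, mul_zero]
    · exact (ch_cont.comp (by fun_prop : Continuous fun α : ℝ => α * x)).stronglyMeasurable.mul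
        (PPt_meas ha t)
  have h1 := E1_sq ha x t
  rw [← integral_add_compl (far_meas δ) h0] at h1
  have h2 : ∫ α in far δ, ch (α * x) * PP a α t = G2 a δ x t := by
    unfold G2
    rw [← integral_indicator (far_meas δ)]
    apply integral_congr_ae
    refine ae_of_all _ fun α => ?_
    simp only
    by_cases h : α ∈ far δ
    · rw [indicator_of_mem h, indicator_of_mem h, smul_eq_mul]
    · rw [indicator_of_notMem h, indicator_of_notMem h, smul_zero]
  have hc : (far δ)ᶜ = Icc (-δ) δ := by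
    ext α
    simp only [far, mem_compl_iff, mem_ofPred_eq, not_lt, mem_Icc]
    exact abs_le
  have h3 : ‖∫ α in (far δ)ᶜ, ch (α * x) * PP a α t‖ ≤ 4 * δ := by
    rw [hc]
    calc ‖∫ α in Icc (-δ) δ, ch (α * x) * PP a α t‖ ≤ 2 * (volume (Icc (-δ) δ)).toReal := by
          apply norm_setIntegral_le_of_norm_le_const
          · rw [Real.volume_Icc]
            exact ENNReal.ofReal_lt_top
          · intro α _
            rw [norm_mul, ch_norm, one_mul]
            exact PP_le ha α t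
      _ = 4 * δ := by
          rw [Real.volume_Icc, ENNReal.toReal_ofReal (by linarith)]
          ring
  have h4 : ‖((‖E1 a x t‖ ^ 2 : ℝ) : ℂ)‖ = ‖E1 a x t‖ ^ 2 := by
    rw [Complex.norm_real, Real.norm_of_nonneg (by positivity)]
  rw [← h4, h1, h2]
  refine (norm_add_le _ _).trans ?_
  linarith

lemma rpow_int {ε δ : ℝ} (hε : 0 < ε) (hδ : 0 < δ) :
    ∫⁻ α in Ioi δ, ENNReal.ofReal (α ^ (-(1 + ε))) = ENNReal.ofReal (δ ^ (-ε) / ε) := by
  rw [← ofReal_integral_eq_lintegral_ofReal]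
  · rw [integral_Ioi_rpow_of_lt (by linarith) hδ]
    congr 1
    rw [show -(1 + ε) + 1 = -ε by ring]
    rw [neg_div_neg_eq]
  · exact integrableOn_Ioi_rpow_of_lt (by linarith) hδ
  · refine (ae_restrict_iff' measurableSet_Ioi).2 (ae_of_all _ fun α hα => ?_)
    exact Real.rpow_nonneg (hδ.le.trans (le_of_lt hα)) _

lemma far_int {ε δ : ℝ} (hε : 0 < ε) (hδ : 0 < δ) :
    ∫⁻ α in far δ, ENNReal.ofReal (|α| ^ (-(1 + ε))) ≤ 2 * ENNReal.ofReal (δ ^ (-ε) / ε) := by
  have h1 : far δ = Ioi δ ∪ Iio (-δ) := by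
    ext α
    simp only [far, mem_ofPred_eq, mem_union, mem_Ioi, mem_Iio, lt_abs]
    constructor
    · rintro (h | h)
      · exact Or.inl h
      · exact Or.inr (by linarith)
    · rintro (h | h)
      · exact Or.inl h
      · exact Or.inr (by linarith)
  have h2 : ∫⁻ α in Ioi δ, ENNReal.ofReal (|α| ^ (-(1 + ε))) = ENNReal.ofReal (δ ^ (-ε) / ε) := by
    rw [← rpow_int hε hδ]
    apply setLIntegral_congr_fun measurableSet_Ioi
    intro α hα
    simp only
    rw [abs_of_pos (hδ.trans hα)]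
  have h3 : ∫⁻ α in Iio (-δ), ENNReal.ofReal (|α| ^ (-(1 + ε))) =
      ENNReal.ofReal (δ ^ (-ε) / ε) := by
    rw [← h2, ← lintegral_indicator measurableSet_Iio, ← lintegral_indicator measurableSet_Ioi,
      ← lintegral_neg_eq_self]
    apply lintegral_congr
    intro α
    by_cases h : δ < α
    · rw [indicator_of_mem (show -α ∈ Iio (-δ) from neg_lt_neg h), indicator_of_mem
        (show α ∈ Ioi δ from h), abs_neg]
    · rw [indicator_of_notMem (show -α ∉ Iio (-δ) from fun h' => h (neg_lt_neg_iff.1 h')),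
        indicator_of_notMem (show α ∉ Ioi δ from h)]
  rw [h1]
  refine (lintegral_union_le _ _ _).trans ?_
  rw [h2, h3, two_mul]

/-- the `L²` bound of the far part -/
lemma G2_int {a : ℝ → H} (ha : Adm a) {ε δ : ℝ} (hε : 0 < ε) (hδ : 0 < δ) :
    ∫⁻ p : ℝ × ℝ, ‖G2 a δ p.1 p.2‖ₑ ^ 2 ≤
      ENNReal.ofReal (2 ^ ε) * (2 * ENNReal.ofReal (δ ^ (-ε) / ε)) := by
  have hm : Measurable fun p : ℝ × ℝ => ‖G2 a δ p.1 p.2‖ₑ ^ 2 :=
    (G2_meas ha δ).measurable.enorm.pow_const 2
  rw [Measure.volume_eq_prod, lintegral_prod_symm _ hm.aemeasurable]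
  simp only [G2_planch ha]
  have hm2 : Measurable fun p : ℝ × ℝ =>
      ‖(far δ).indicator (fun α => PP a α p.1) p.2‖ₑ ^ 2 := by
    have h2 : (fun q : ℝ × ℝ => (far δ).indicator (fun α => PP a α q.1) q.2) =
        ({q : ℝ × ℝ | q.2 ∈ far δ}).indicator fun q => PP a q.2 q.1 := by
      ext q
      by_cases h : q.2 ∈ far δ
      · rw [indicator_of_mem h, indicator_of_mem (show q ∈ {q : ℝ × ℝ | q.2 ∈ far δ} from h)]
      · rw [indicator_of_notMem h, indicator_of_notMem (show q ∉ {q : ℝ × ℝ | q.2 ∈ far δ} from h)]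
    have h3 : Measurable fun q : ℝ × ℝ => (far δ).indicator (fun α => PP a α q.1) q.2 := by
      rw [h2]
      apply Measurable.indicator
      · exact ((PP_meas ha).comp_measurable
          (by fun_prop : Measurable fun q : ℝ × ℝ => ((q.2, q.1) : ℝ × ℝ))).measurable
      · exact measurable_snd (far_meas δ)
    exact h3.enorm.pow_const 2
  rw [lintegral_lintegral_swap (f := fun t α => ‖(far δ).indicator (fun α => PP a α t) α‖ₑ ^ 2)
    hm2.aemeasurable]
  calc ∫⁻ α, ∫⁻ t, ‖(far δ).indicator (fun α => PP a α t) α‖ₑ ^ 2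
      ≤ ∫⁻ α, (far δ).indicator
          (fun α => ENNReal.ofReal (2 ^ ε) * ENNReal.ofReal (|α| ^ (-(1 + ε)))) α := by
        apply lintegral_mono
        intro α
        simp only
        by_cases h : α ∈ far δ
        · simp only [indicator_of_mem h]
          have hα0 : 0 < |α| := hδ.trans h
          by_cases h2 : 2 < |α|
          · simp only [PP_zero h2, enorm_zero]
            simp
          · have h2' : |α| ≤ 2 := not_lt.1 h2
            refine (PP_time ha (abs_pos.1 hα0)).trans ?_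
            rw [← ENNReal.ofReal_mul (by positivity)]
            apply ENNReal.ofReal_le_ofReal
            rw [show -(1 + ε) = -1 + -ε by ring, Real.rpow_add hα0, Real.rpow_neg_one,
              Real.rpow_neg hα0.le]
            have h3 : |α| ^ ε ≤ 2 ^ ε := Real.rpow_le_rpow hα0.le h2' hε.le
            have h4 : 0 < |α| ^ ε := Real.rpow_pos_of_pos hα0 _
            calc |α|⁻¹ = |α|⁻¹ * ((|α| ^ ε) * (|α| ^ ε)⁻¹) := by
                  rw [mul_inv_cancel₀ h4.ne', mul_one]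
              _ ≤ |α|⁻¹ * ((2 ^ ε) * (|α| ^ ε)⁻¹) := by gcongr
              _ = 2 ^ ε * (|α|⁻¹ * (|α| ^ ε)⁻¹) := by ring
        · simp only [indicator_of_notMem h, enorm_zero]
          simp
    _ = ENNReal.ofReal (2 ^ ε) * ∫⁻ α in far δ, ENNReal.ofReal (|α| ^ (-(1 + ε))) := by
        rw [lintegral_indicator (far_meas δ), lintegral_const_mul]
        have h5 : Measurable fun α : ℝ => |α| := by fun_prop
        exact (h5.pow_const _).ennreal_ofReal
    _ ≤ ENNReal.ofReal (2 ^ ε) * (2 * ENNReal.ofReal (δ ^ (-ε) / ε)) := by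
        gcongr
        exact far_int hε hδ

/-- the level sets -/
lemma level {a : ℝ → H} (ha : Adm a) {ε l : ℝ} (hε : 0 < ε) (hl : 0 < l) :
    volume {p : ℝ × ℝ | l < ‖E1 a p.1 p.2‖ ^ 2} ≤
      ENNReal.ofReal (8 * 2 ^ ε * 8 ^ ε / ε * l ^ (-2 - ε)) := by
  have hδ : 0 < l / 8 := by positivity
  have h1 : {p : ℝ × ℝ | l < ‖E1 a p.1 p.2‖ ^ 2} ⊆
      {p : ℝ × ℝ | ENNReal.ofReal ((l / 2) ^ 2) ≤ ‖G2 a (l / 8) p.1 p.2‖ₑ ^ 2} := by
    intro p hp
    have h2 := E1_sq_le ha hδ p.1 p.2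
    have h3 : l / 2 ≤ ‖G2 a (l / 8) p.1 p.2‖ := by
      have : l < ‖E1 a p.1 p.2‖ ^ 2 := hp
      linarith
    show ENNReal.ofReal ((l / 2) ^ 2) ≤ ‖G2 a (l / 8) p.1 p.2‖ₑ ^ 2
    rw [ENNReal.ofReal_pow (by positivity), ← ofReal_norm]
    gcongr
  refine (measure_mono h1).trans ?_
  have hm : Measurable fun p : ℝ × ℝ => ‖G2 a (l / 8) p.1 p.2‖ₑ ^ 2 :=
    (G2_meas ha _).measurable.enorm.pow_const 2
  have hl2 : 0 < (l / 2) ^ 2 := by positivity
  refine (meas_ge_le_lintegral_div hm.aemeasurable (by simpa using hl2.ne')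
    ENNReal.ofReal_ne_top).trans ?_
  calc (∫⁻ p : ℝ × ℝ, ‖G2 a (l / 8) p.1 p.2‖ₑ ^ 2) / ENNReal.ofReal ((l / 2) ^ 2)
      ≤ (ENNReal.ofReal (2 ^ ε) * (2 * ENNReal.ofReal ((l / 8) ^ (-ε) / ε))) /
          ENNReal.ofReal ((l / 2) ^ 2) := by
        gcongr
        exact G2_int ha hε hδ
    _ = ENNReal.ofReal (8 * 2 ^ ε * 8 ^ ε / ε * l ^ (-2 - ε)) := by
        rw [show (2 : ℝ≥0∞) = ENNReal.ofReal 2 by norm_num,
          ← ENNReal.ofReal_mul (by norm_num), ← ENNReal.ofReal_mul (by positivity),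
          ← ENNReal.ofReal_div_of_pos hl2]
        congr 1
        rw [Real.div_rpow hl.le (by norm_num), Real.rpow_neg (by norm_num : (0 : ℝ) ≤ 8),
          show -2 - ε = -ε + -2 by ring, Real.rpow_add hl, Real.rpow_neg hl.le 2,
          Real.rpow_two]
        field_simp
        ring

/-- The `L^{2r}` bound, `r > 2`. -/
theorem zyg (r : ℝ) (hr : 2 < r) : ∃ C : ℝ≥0, ∀ (H : Type) [NormedAddCommGroup H]
    [InnerProductSpace ℂ H] [CompleteSpace H] (a : ℝ → H), Adm a →
    ∫⁻ p : ℝ × ℝ, ENNReal.ofReal ((‖E1 a p.1 p.2‖ ^ 2) ^ r) ≤ C := by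
  set ε : ℝ := (r - 2) / 2 with hε
  have hε0 : 0 < ε := by rw [hε]; linarith
  set K : ℝ := 8 * 2 ^ ε * 8 ^ ε / ε with hK
  have hK0 : 0 < K := by positivity
  have hfin : ∫⁻ l in Ioc (0 : ℝ) 4, ENNReal.ofReal (K * l ^ (ε - 1)) < ⊤ := by
    have h1 : IntervalIntegrable (fun l : ℝ => K * l ^ (ε - 1)) volume 0 4 :=
      (intervalIntegral.intervalIntegrable_rpow' (by linarith)).const_mul K
    rw [intervalIntegrable_iff_integrableOn_Ioc_of_le (by norm_num)] at h1
    exact h1.lintegral_lt_top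
  refine ⟨(ENNReal.ofReal r * ∫⁻ l in Ioc (0 : ℝ) 4, ENNReal.ofReal (K * l ^ (ε - 1))).toNNReal,
    ?_⟩
  intro H _ _ _ a ha
  rw [ENNReal.coe_toNNReal (ENNReal.mul_lt_top ENNReal.ofReal_lt_top hfin).ne]
  have hm : Measurable fun p : ℝ × ℝ => ‖E1 a p.1 p.2‖ ^ 2 := (E1_meas ha).norm.measurable.pow_const 2
  rw [lintegral_rpow_eq_lintegral_meas_lt_mul volume (ae_of_all _ fun p => by positivity)
    hm.aemeasurable (by linarith)]
  gcongr ENNReal.ofReal r * ?_
  rw [← Ioc_union_Ioi_eq_Ioi (show (0 : ℝ) ≤ 4 by norm_num)]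
  refine (lintegral_union_le _ _ _).trans ?_
  have h2 : ∫⁻ l in Ioi (4 : ℝ), volume {p : ℝ × ℝ | l < ‖E1 a p.1 p.2‖ ^ 2} *
      ENNReal.ofReal (l ^ (r - 1)) = 0 := by
    rw [setLIntegral_congr_fun (g := fun _ => 0) measurableSet_Ioi, lintegral_zero]
    intro l hl
    simp only
    have h3 : {p : ℝ × ℝ | l < ‖E1 a p.1 p.2‖ ^ 2} = ∅ := by
      ext p
      simp only [mem_ofPred_eq, mem_empty_iff_false, iff_false, not_lt]
      have h4 := E1_le ha p.1 p.2
      have h5 : ‖E1 a p.1 p.2‖ ^ 2 ≤ 2 ^ 2 := by gcongr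
      have h6 : (4 : ℝ) < l := hl
      linarith
    rw [h3, measure_empty, zero_mul]
  rw [h2, add_zero]
  apply setLIntegral_mono' measurableSet_Ioc
  intro l hl
  calc volume {p : ℝ × ℝ | l < ‖E1 a p.1 p.2‖ ^ 2} * ENNReal.ofReal (l ^ (r - 1))
      ≤ ENNReal.ofReal (K * l ^ (-2 - ε)) * ENNReal.ofReal (l ^ (r - 1)) := by
        gcongr
        exact level ha hε0 hl.1
    _ = ENNReal.ofReal (K * l ^ (ε - 1)) := by
        rw [← ENNReal.ofReal_mul (mul_nonneg hK0.le (Real.rpow_nonneg hl.1.le _)), mul_assoc,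
          ← Real.rpow_add hl.1]
        congr 3
        rw [hε]
        ring

end Pool.Agent.TH277.HT
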