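import Mathlib
import Pool.Agent.TH277.HT.C
set_option autoImplicit false
set_option linter.unusedSectionVars false

/-! Mixed norms, products over the coordinates, multilinear forms. -/

namespace Pool.Agent.TH277.HT

open MeasureTheory Set Complex
open scoped ENNReal NNReal

attribute [local irreducible] PP W E1

lemma E1t_meas {H : Type} [NormedAddCommGroup H] [InnerProductSpace ℂ H] [CompleteSpace H]
    {a : ℝ → H} (ha : Adm a) (t : ℝ) : StronglyMeasurable fun x : ℝ => E1 a x t :=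
  (E1_meas ha).comp_measurable (by fun_prop : Measurable fun x : ℝ => ((x, t) : ℝ × ℝ))

/-- The mixed norm bound. -/
theorem mix (n : ℕ) (hn : 2 ≤ n) (q : ℝ) (hq : 2 * ((n : ℝ) + 1) / n < q) :
    ∃ C : ℝ≥0, ∀ (H : Type) [NormedAddCommGroup H]
    [InnerProductSpace ℂ H] [CompleteSpace H] (a : ℝ → H), Adm a →
    ∫⁻ t : ℝ, (∫⁻ x : ℝ, ‖E1 a x t‖ₑ ^ q) ^ (n : ℝ) ≤ C := by
  have hn2 : (2 : ℝ) ≤ n := by exact_mod_cast hn
  have hn0 : (0 : ℝ) < n := by linarith
  have hq2 : 2 < n * (q - 2) := by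
    rw [div_lt_iff₀ hn0] at hq
    linarith
  have hq0 : 2 < q := by
    by_contra h
    have : n * (q - 2) ≤ 0 := mul_nonpos_of_nonneg_of_nonpos hn0.le (by linarith)
    linarith
  set Q : ℝ := 2 + n * (q - 2) with hQ
  obtain ⟨C, hC⟩ := zyg (Q / 2) (by linarith)
  refine ⟨2 ^ (n - 1) * C, ?_⟩
  intro H _ _ _ a ha
  set w : ℝ := 1 / n with hw
  have hw0 : 0 < w := by positivity
  have hw1 : w ≤ 1 := by
    rw [hw, div_le_one hn0]
    linarith
  have hm : ∀ t, Measurable fun x : ℝ => ‖E1 a x t‖ₑ := fun t => (E1t_meas ha t).enorm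
  have hnw : w * n = 1 := by
    rw [hw]
    field_simp
  -- Hölder's inequality at a fixed time
  have h1 : ∀ t : ℝ, (∫⁻ x : ℝ, ‖E1 a x t‖ₑ ^ q) ^ (n : ℝ) ≤
      2 ^ (n - 1) * ∫⁻ x : ℝ, ‖E1 a x t‖ₑ ^ Q := by
    intro t
    have h2 : ∀ x : ℝ, ‖E1 a x t‖ₑ ^ q =
        (‖E1 a x t‖ₑ ^ 2) ^ (1 - w) * (‖E1 a x t‖ₑ ^ Q) ^ w := by
      intro x
      rw [← ENNReal.rpow_natCast, ← ENNReal.rpow_mul, ← ENNReal.rpow_mul,
        ← ENNReal.rpow_add_of_nonneg _ _ (by
          have : 0 ≤ 1 - w := by linarith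
          positivity) (by positivity)]
      congr 1
      have h3 : Q * w = 2 * w + (q - 2) := by
        rw [hQ, add_mul, mul_assoc, mul_comm (q - 2), ← mul_assoc, mul_comm (n : ℝ) w, hnw, one_mul]
      push_cast
      rw [h3]
      ring
    have h3 : ∫⁻ x : ℝ, ‖E1 a x t‖ₑ ^ q ≤
        (∫⁻ x : ℝ, ‖E1 a x t‖ₑ ^ 2) ^ (1 - w) * (∫⁻ x : ℝ, ‖E1 a x t‖ₑ ^ Q) ^ w := by
      simp only [h2]
      exact ENNReal.lintegral_mul_norm_pow_le ((hm t).pow_const 2).aemeasurable
        ((hm t).pow_const Q).aemeasurable (by linarith) hw0.le (by ring)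
    calc (∫⁻ x : ℝ, ‖E1 a x t‖ₑ ^ q) ^ (n : ℝ)
        ≤ ((2 : ℝ≥0∞) ^ (1 - w) * (∫⁻ x : ℝ, ‖E1 a x t‖ₑ ^ Q) ^ w) ^ (n : ℝ) := by
          gcongr
          refine h3.trans ?_
          gcongr
          exact E1_planch ha t
      _ = 2 ^ (n - 1) * ∫⁻ x : ℝ, ‖E1 a x t‖ₑ ^ Q := by
          rw [ENNReal.mul_rpow_of_nonneg _ _ hn0.le, ← ENNReal.rpow_mul, ← ENNReal.rpow_mul, hnw,
            ENNReal.rpow_one, sub_mul, hnw, one_mul, ← ENNReal.rpow_natCast]
          congr 2
          rw [Nat.cast_sub (by omega), Nat.cast_one]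
  calc ∫⁻ t : ℝ, (∫⁻ x : ℝ, ‖E1 a x t‖ₑ ^ q) ^ (n : ℝ)
      ≤ ∫⁻ t : ℝ, 2 ^ (n - 1) * ∫⁻ x : ℝ, ‖E1 a x t‖ₑ ^ Q := lintegral_mono h1
    _ = 2 ^ (n - 1) * ∫⁻ t : ℝ, ∫⁻ x : ℝ, ‖E1 a x t‖ₑ ^ Q := by
        rw [lintegral_const_mul' _ _ (ENNReal.pow_ne_top (by norm_num))]
    _ = 2 ^ (n - 1) * ∫⁻ p : ℝ × ℝ, ‖E1 a p.1 p.2‖ₑ ^ Q := by
        rw [Measure.volume_eq_prod, lintegral_prod_symm _
          ((E1_meas ha).enorm.pow_const Q).aemeasurable]
    _ ≤ 2 ^ (n - 1) * C := by
        gcongr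
        refine le_trans (le_of_eq ?_) (hC H a ha)
        apply lintegral_congr
        intro p
        rw [← ofReal_norm, ENNReal.ofReal_rpow_of_nonneg (norm_nonneg _) (by linarith)]
        congr 1
        rw [← Real.rpow_natCast, ← Real.rpow_mul (norm_nonneg _)]
        congr 1
        push_cast
        ring
    _ = ((2 ^ (n - 1) * C : ℝ≥0) : ℝ≥0∞) := by push_cast; rfl

/-- Fubini for products over the coordinates. -/
lemma lint_pi {n : ℕ} (f : Fin n → ℝ → ℝ≥0∞) (hf : ∀ i, Measurable (f i)) :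
    ∫⁻ x : Fin n → ℝ, ∏ i, f i (x i) = ∏ i, ∫⁻ u, f i u := by
  induction n with
  | zero =>
    rw [volume_pi]
    simp
  | succ n ih =>
    have h1 := (measurePreserving_piFinSuccAbove (fun _ : Fin (n + 1) => (volume : Measure ℝ)) 0).symm
    rw [volume_pi, ← h1.lintegral_comp_emb (MeasurableEquiv.measurableEmbedding _)]
    have h2 : ∀ p : ℝ × (Fin n → ℝ), ∏ i, f i ((MeasurableEquiv.piFinSuccAbove
        (fun _ : Fin (n + 1) => ℝ) 0).symm p i) = f 0 p.1 * ∏ i, f (Fin.succ i) (p.2 i) := by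
      intro p
      rw [Fin.prod_univ_succ]
      simp [MeasurableEquiv.piFinSuccAbove_symm_apply, Fin.insertNthEquiv]
    simp only [h2]
    have hm : Measurable fun r : Fin n → ℝ => ∏ i, f (Fin.succ i) (r i) :=
      Finset.measurable_prod _ fun i _ => (hf _).comp (measurable_pi_apply i)
    rw [lintegral_prod_mul (hf 0).aemeasurable hm.aemeasurable, Fin.prod_univ_succ]
    congr 1
    rw [← volume_pi]
    exact ih _ fun i => hf _

variable {H : Type} [NormedAddCommGroup H] [InnerProductSpace ℂ H] [CompleteSpace H]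

lemma tuple_meas {Ω : Type*} [MeasurableSpace Ω] {n : ℕ} (ψ : Fin n → Ω → H)
    (h : ∀ i, StronglyMeasurable (ψ i)) :
    StronglyMeasurable fun ω => (fun j => ψ j ω : Fin n → H) := by
  induction n with
  | zero =>
    have h1 : (fun ω => (fun j => ψ j ω : Fin 0 → H)) = fun _ => 0 := by
      ext ω j
      exact j.elim0
    rw [h1]
    exact stronglyMeasurable_const
  | succ n ih =>
    have h1 : (fun ω => (fun j => ψ j ω : Fin (n + 1) → H)) =
        (fun p : H × (Fin n → H) => (Fin.cons p.1 p.2 : Fin (n + 1) → H)) ∘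
          fun ω => (ψ 0 ω, fun j => ψ (Fin.succ j) ω) := by
      ext ω j
      refine Fin.cases ?_ (fun j => ?_) j <;> simp
    rw [h1]
    have h2 : Continuous fun p : H × (Fin n → H) => (Fin.cons p.1 p.2 : Fin (n + 1) → H) :=
      Continuous.finCons (A := fun _ => H) continuous_fst continuous_snd
    exact h2.comp_stronglyMeasurable ((h 0).prodMk (ih (fun j => ψ (Fin.succ j)) fun i => h _))

/-- Fubini for multilinear forms. -/
lemma mult_int {n : ℕ} (M : ContinuousMultilinearMap ℂ (fun _ : Fin n => H) ℂ)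
    (φ : Fin n → ℝ → H) (hm : ∀ i, StronglyMeasurable (φ i)) (hi : ∀ i, Integrable (φ i)) :
    ∫ ξ : Fin n → ℝ, M (fun j => φ j (ξ j)) = M (fun j => ∫ u, φ j u) := by
  induction n with
  | zero =>
    have h1 : ∀ ξ : Fin 0 → ℝ, M (fun j => φ j (ξ j)) = M (fun j => ∫ u, φ j u) := by
      intro ξ
      congr 1
      ext j
      exact j.elim0
    simp only [h1]
    rw [volume_pi]
    simp [measureReal_def]
  | succ n ih =>
    have h1 := (measurePreserving_piFinSuccAbove (fun _ : Fin (n + 1) => (volume : Measure ℝ)) 0).symm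
    have hint : Integrable fun ξ : Fin (n + 1) → ℝ => M (fun j => φ j (ξ j)) := by
      have h3 : Integrable (fun ξ : Fin (n + 1) → ℝ => ‖M‖ * ∏ j, ‖φ j (ξ j)‖) := by
        apply Integrable.const_mul
        exact Integrable.fintype_prod (f := fun j u => ‖φ j u‖) fun j => (hi j).norm
      refine h3.mono' ?_ (ae_of_all _ fun ξ => M.le_opNorm _)
      apply StronglyMeasurable.aestronglyMeasurable
      apply M.cont.comp_stronglyMeasurable
      exact tuple_meas (fun (j : Fin (n + 1)) (ξ : Fin (n + 1) → ℝ) => φ j (ξ j)) fun j =>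
        (hm j).comp_measurable (measurable_pi_apply j)
    rw [volume_pi] at hint ⊢
    rw [← h1.integral_comp']
    have hint2 := (h1.integrable_comp_emb (MeasurableEquiv.measurableEmbedding _)).2 hint
    have h2 : ∀ p : ℝ × (Fin n → ℝ), M (fun j => φ j ((MeasurableEquiv.piFinSuccAbove
        (fun _ : Fin (n + 1) => ℝ) 0).symm p j)) =
          M.curryLeft (φ 0 p.1) (fun j => φ (Fin.succ j) (p.2 j)) := by
      intro p
      rw [ContinuousMultilinearMap.curryLeft_apply]
      congr 1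
      ext j
      refine Fin.cases ?_ (fun j => ?_) j <;>
        simp [MeasurableEquiv.piFinSuccAbove_symm_apply, Fin.insertNthEquiv]
    have hint3 : Integrable (fun p : ℝ × (Fin n → ℝ) =>
        M.curryLeft (φ 0 p.1) (fun j => φ (Fin.succ j) (p.2 j)))
        ((volume : Measure ℝ).prod (Measure.pi fun _ => volume)) := by
      refine hint2.congr (ae_of_all _ fun p => ?_)
      simp only [Function.comp]
      rw [h2 p]
    simp only [h2]
    rw [integral_prod_symm _ hint3]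
    have h4 : ∀ r : Fin n → ℝ, ∫ u, M.curryLeft (φ 0 u) (fun j => φ (Fin.succ j) (r j)) =
        M.curryLeft (∫ u, φ 0 u) (fun j => φ (Fin.succ j) (r j)) := by
      intro r
      exact ((ContinuousMultilinearMap.apply ℂ (fun _ : Fin n => H) ℂ
        (fun j => φ (Fin.succ j) (r j))).comp M.curryLeft).integral_comp_comm (hi 0)
    simp only [h4]
    rw [← volume_pi, ih (M.curryLeft (∫ u, φ 0 u)) (fun j => φ (Fin.succ j)) (fun i => hm _)
      fun i => hi _, ContinuousMultilinearMap.curryLeft_apply]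
    congr 1
    ext j
    refine Fin.cases ?_ (fun j => ?_) j <;> simp

/-- the extension operator -/
noncomputable def EE {n : ℕ} (f : (Fin n → ℝ) → ℂ) (y : (Fin n → ℝ) × ℝ) : ℂ :=
  ∫ ξ in Icc (-1 : Fin n → ℝ) 1, ch (∑ j, ξ j * y.1 j + (∑ j, ξ j ^ 2) * y.2) * f ξ

lemma ch_sum {ι : Type*} (s : Finset ι) (f : ι → ℝ) : ch (∑ j ∈ s, f j) = ∏ j ∈ s, ch (f j) := by
  classical
  induction s using Finset.induction with
  | empty => simp [ch]
  | insert i s hi ih => rw [Finset.sum_insert hi, Finset.prod_insert hi, ch_add, ih]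

/-- The extension operator on multilinear forms. -/
lemma EE_mult {n : ℕ} (M : ContinuousMultilinearMap ℂ (fun _ : Fin n => H) ℂ)
    (a : Fin n → ℝ → H) (ha : ∀ j, Adm (a j)) (y : (Fin n → ℝ) × ℝ) :
    EE (fun ξ => M (fun j => a j (ξ j))) y = M (fun j => E1 (a j) (y.1 j) y.2) := by
  have h1 : ∀ j, E1 (a j) (y.1 j) y.2 = ∫ u, ch (u * y.1 j + u ^ 2 * y.2) • tr (a j) u :=
    fun j => E1_eq _ _ _
  have hm : ∀ j, StronglyMeasurable fun u : ℝ => ch (u * y.1 j + u ^ 2 * y.2) • tr (a j) u := by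
    intro j
    apply StronglyMeasurable.smul
    · have h2 : Continuous fun u : ℝ => ch (u * y.1 j + u ^ 2 * y.2) := ch_cont.comp (by fun_prop)
      exact h2.stronglyMeasurable
    · exact tr_meas (ha j)
  have hi : ∀ j, Integrable fun u : ℝ => ch (u * y.1 j + u ^ 2 * y.2) • tr (a j) u := by
    intro j
    apply int_of_supp (hm j) 1 1
    · intro u
      rw [norm_smul, ch_norm, one_mul]
      exact tr_bd (ha j) u
    · intro u hu
      rw [tr_zero _ (fun h => absurd (abs_le.2 h) (not_le.2 hu)), smul_zero]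
  simp only [h1]
  rw [← mult_int M _ hm hi]
  unfold EE
  rw [← integral_indicator measurableSet_Icc]
  apply integral_congr_ae
  refine ae_of_all _ fun ξ => ?_
  simp only
  rw [ContinuousMultilinearMap.map_smul_univ, smul_eq_mul]
  by_cases h : ξ ∈ Icc (-1 : Fin n → ℝ) 1
  · rw [indicator_of_mem h]
    congr 1
    · rw [Finset.sum_mul, ← Finset.sum_add_distrib, ch_sum]
    · congr 1
      ext j
      unfold tr
      rw [indicator_of_mem]
      exact ⟨h.1 j, h.2 j⟩
  · rw [indicator_of_notMem h]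
    have h2 : ∃ j, ξ j ∉ Icc (-1 : ℝ) 1 := by
      by_contra hc
      push Not at hc
      exact h ⟨fun j => (hc j).1, fun j => (hc j).2⟩
    obtain ⟨j, hj⟩ := h2
    rw [M.map_coord_zero j (tr_zero (a j) hj), mul_zero]

end Pool.Agent.TH277.HT
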