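import Mathlib
import Pool.Agent.TH277.HT.D
set_option autoImplicit false
set_option linter.unusedSectionVars false

/-! The class of multilinear functions of Hilbert space valued functions of one coordinate. -/

namespace Pool.Agent.TH277.HT

open MeasureTheory Set Complex
open scoped ENNReal NNReal

attribute [local irreducible] PP W E1

/-- `s(ξ) = M(a_1(ξ_1), …, a_n(ξ_n))` with a multilinear form `M` of norm at most one on a Hilbert
space and measurable functions `a_j` with values in its unit ball. -/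
def Sch (n : ℕ) (s : (Fin n → ℝ) → ℂ) : Prop :=
  ∃ (H : Type) (_ : NormedAddCommGroup H) (_ : InnerProductSpace ℂ H) (_ : CompleteSpace H)
    (M : ContinuousMultilinearMap ℂ (fun _ : Fin n => H) ℂ) (a : Fin n → ℝ → H),
    ‖M‖ ≤ 1 ∧ (∀ j, Adm (a j)) ∧ ∀ ξ, s ξ = M (fun j => a j (ξ j))

lemma Sch.meas {n : ℕ} {s : (Fin n → ℝ) → ℂ} (hs : Sch n s) : StronglyMeasurable s := by
  obtain ⟨H, _, _, _, M, a, hM, ha, h⟩ := hs
  have h1 : s = fun ξ => M (fun j => a j (ξ j)) := funext h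
  rw [h1]
  apply M.cont.comp_stronglyMeasurable
  exact tuple_meas (fun (j : Fin n) (ξ : Fin n → ℝ) => a j (ξ j)) fun j =>
    (ha j).meas.comp_measurable (measurable_pi_apply j)

lemma Sch.le {n : ℕ} {s : (Fin n → ℝ) → ℂ} (hs : Sch n s) (ξ : Fin n → ℝ) : ‖s ξ‖ ≤ 1 := by
  obtain ⟨H, _, _, _, M, a, hM, ha, h⟩ := hs
  rw [h ξ]
  refine (M.le_opNorm _).trans ?_
  calc ‖M‖ * ∏ j, ‖a j (ξ j)‖ ≤ 1 * ∏ _j : Fin n, (1 : ℝ) := by
        gcongr with j
        exact (ha j).bd _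
    _ = 1 := by simp

/-- The `L^1` norm on the cube. -/
noncomputable def I1 {n : ℕ} (s : (Fin n → ℝ) → ℂ) : ℝ≥0∞ := ∫⁻ ξ in Icc (-1 : Fin n → ℝ) 1, ‖s ξ‖ₑ

lemma cube_vol (n : ℕ) : volume (Icc (-1 : Fin n → ℝ) 1) = 2 ^ n := by
  rw [Real.volume_Icc_pi]
  simp only [Pi.one_apply, Pi.neg_apply, sub_neg_eq_add]
  norm_num

lemma EE_le {n : ℕ} (s : (Fin n → ℝ) → ℂ) (y : (Fin n → ℝ) × ℝ) : ‖EE s y‖ₑ ≤ I1 s := by
  unfold EE I1
  refine (enorm_integral_le_lintegral_enorm _).trans (le_of_eq ?_)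
  apply lintegral_congr
  intro ξ
  rw [enorm_mul, ch_enorm, one_mul]

lemma I1_le {n : ℕ} (s : (Fin n → ℝ) → ℂ) (hs : ∀ ξ, ‖s ξ‖ ≤ 1) : I1 s ≤ 2 ^ n := by
  unfold I1
  calc ∫⁻ ξ in Icc (-1 : Fin n → ℝ) 1, ‖s ξ‖ₑ ≤ ∫⁻ _ξ in Icc (-1 : Fin n → ℝ) 1, 1 := by
        apply lintegral_mono
        intro ξ
        simp only
        rw [← ofReal_norm]
        exact ENNReal.ofReal_le_one.2 (hs ξ)
    _ = 2 ^ n := by rw [setLIntegral_one, cube_vol]

lemma EE_meas {n : ℕ} {s : (Fin n → ℝ) → ℂ} (hs : StronglyMeasurable s) :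
    StronglyMeasurable (EE s) := by
  have h1 : StronglyMeasurable (Function.uncurry fun (y : (Fin n → ℝ) × ℝ) (ξ : Fin n → ℝ) =>
      ch (∑ j, ξ j * y.1 j + (∑ j, ξ j ^ 2) * y.2) * s ξ) := by
    refine StronglyMeasurable.mul (f := fun q : ((Fin n → ℝ) × ℝ) × (Fin n → ℝ) =>
      ch (∑ j, q.2 j * q.1.1 j + (∑ j, q.2 j ^ 2) * q.1.2))
      (g := fun q : ((Fin n → ℝ) × ℝ) × (Fin n → ℝ) => s q.2) ?_ ?_
    · exact (ch_cont.comp (by fun_prop : Continuous fun q : ((Fin n → ℝ) × ℝ) × (Fin n → ℝ) =>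
        (∑ j, q.2 j * q.1.1 j + (∑ j, q.2 j ^ 2) * q.1.2))).stronglyMeasurable
    · exact hs.comp_measurable measurable_snd
  exact h1.integral_prod_right (ν := (volume : Measure (Fin n → ℝ)).restrict (Icc (-1) 1))

/-- The conjectured bound for the class. -/
theorem base (n : ℕ) (hn : 2 ≤ n) (q : ℝ) (hq : 2 * ((n : ℝ) + 1) / n < q) :
    ∃ C : ℝ≥0, ∀ s : (Fin n → ℝ) → ℂ, Sch n s → ∫⁻ y, ‖EE s y‖ₑ ^ q ≤ C := by
  obtain ⟨C, hC⟩ := mix n hn q hq
  have hn2 : (2 : ℝ) ≤ n := by exact_mod_cast hn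
  have hn0 : (0 : ℝ) < n := by linarith
  have hq0 : 0 < q := lt_trans (by positivity) hq
  refine ⟨C, ?_⟩
  intro s hs
  obtain ⟨H, _, _, _, M, a, hM, ha, h⟩ := hs
  have h1 : s = fun ξ => M (fun j => a j (ξ j)) := funext h
  rw [h1]
  have h2 : ∀ y : (Fin n → ℝ) × ℝ, ‖EE (fun ξ => M (fun j => a j (ξ j))) y‖ₑ ^ q ≤
      ∏ j, ‖E1 (a j) (y.1 j) y.2‖ₑ ^ q := by
    intro y
    rw [EE_mult M a ha y, ENNReal.prod_rpow_of_nonneg hq0.le]
    gcongr
    rw [← ofReal_norm]
    calc ENNReal.ofReal ‖M fun j => E1 (a j) (y.1 j) y.2‖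
        ≤ ENNReal.ofReal (∏ j, ‖E1 (a j) (y.1 j) y.2‖) := by
          apply ENNReal.ofReal_le_ofReal
          refine (M.le_opNorm _).trans ?_
          have h3 : 0 ≤ ∏ j, ‖E1 (a j) (y.1 j) y.2‖ := Finset.prod_nonneg fun j _ => norm_nonneg _
          calc ‖M‖ * ∏ j, ‖E1 (a j) (y.1 j) y.2‖ ≤ 1 * ∏ j, ‖E1 (a j) (y.1 j) y.2‖ := by gcongr
            _ = _ := one_mul _
      _ = ∏ j, ‖E1 (a j) (y.1 j) y.2‖ₑ := by
          rw [ENNReal.ofReal_prod_of_nonneg fun j _ => norm_nonneg _]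
          apply Finset.prod_congr rfl
          intro j _
          rw [ofReal_norm]
  have hm : ∀ j, Measurable fun p : ℝ × ℝ => ‖E1 (a j) p.1 p.2‖ₑ ^ q := fun j =>
    (E1_meas (ha j)).enorm.pow_const q
  have hA : ∀ j, Measurable fun t : ℝ => ∫⁻ x : ℝ, ‖E1 (a j) x t‖ₑ ^ q := fun j =>
    (hm j).lintegral_prod_left'
  have hprod : Measurable fun y : (Fin n → ℝ) × ℝ => ∏ j, ‖E1 (a j) (y.1 j) y.2‖ₑ ^ q := by
    apply Finset.measurable_prod
    intro j _
    have h3 : Measurable fun y : (Fin n → ℝ) × ℝ => ((y.1 j, y.2) : ℝ × ℝ) := by fun_prop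
    exact (hm j).comp h3
  calc ∫⁻ y, ‖EE (fun ξ => M (fun j => a j (ξ j))) y‖ₑ ^ q
      ≤ ∫⁻ y : (Fin n → ℝ) × ℝ, ∏ j, ‖E1 (a j) (y.1 j) y.2‖ₑ ^ q := lintegral_mono h2
    _ = ∫⁻ t : ℝ, ∫⁻ x : Fin n → ℝ, ∏ j, ‖E1 (a j) (x j) t‖ₑ ^ q := by
        rw [Measure.volume_eq_prod, lintegral_prod_symm _ hprod.aemeasurable]
    _ = ∫⁻ t : ℝ, ∏ j, ∫⁻ x : ℝ, ‖E1 (a j) x t‖ₑ ^ q := by
        apply lintegral_congr
        intro t
        exact lint_pi (fun j x => ‖E1 (a j) x t‖ₑ ^ q) fun j =>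
          (E1t_meas (ha j) t).enorm.pow_const q
    _ = ∫⁻ t : ℝ, ∏ j, ((∫⁻ x : ℝ, ‖E1 (a j) x t‖ₑ ^ q) ^ (n : ℝ)) ^ (1 / (n : ℝ)) := by
        apply lintegral_congr
        intro t
        apply Finset.prod_congr rfl
        intro j _
        rw [← ENNReal.rpow_mul, mul_one_div_cancel hn0.ne', ENNReal.rpow_one]
    _ ≤ ∏ j, (∫⁻ t : ℝ, (∫⁻ x : ℝ, ‖E1 (a j) x t‖ₑ ^ q) ^ (n : ℝ)) ^ (1 / (n : ℝ)) := by
        apply ENNReal.lintegral_prod_norm_pow_le
        · intro j _
          exact ((hA j).pow_const _).aemeasurable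
        · rw [Finset.sum_const, Finset.card_univ, Fintype.card_fin, nsmul_eq_mul,
            mul_one_div_cancel hn0.ne']
        · intro j _
          positivity
    _ ≤ ∏ _j : Fin n, (C : ℝ≥0∞) ^ (1 / (n : ℝ)) := by
        gcongr with j
        exact hC H (a j) (ha j)
    _ = C := by
        rw [Finset.prod_const, Finset.card_univ, Fintype.card_fin, ← ENNReal.rpow_natCast,
          ← ENNReal.rpow_mul, one_div_mul_cancel hn0.ne', ENNReal.rpow_one]

/-- Multiplication by a function of one coordinate. -/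
lemma Sch.mul_one {n : ℕ} {s : (Fin n → ℝ) → ℂ} (hs : Sch n s) (i : Fin n) (c : ℝ → ℂ)
    (hc : Measurable c) (hb : ∀ u, ‖c u‖ ≤ 1) : Sch n (fun ξ => s ξ * c (ξ i)) := by
  obtain ⟨H, i1, i2, i3, M, a, hM, ha, h⟩ := hs
  refine ⟨H, i1, i2, i3, M, fun j u => (if j = i then c u else 1) • a j u, hM, ?_, ?_⟩
  · intro j
    constructor
    · apply StronglyMeasurable.smul _ (ha j).meas
      by_cases hj : j = i
      · simp only [hj, if_true]
        exact hc.stronglyMeasurable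
      · simp only [hj, if_false]
        exact stronglyMeasurable_const
    · intro u
      rw [norm_smul]
      have h1 : ‖(if j = i then c u else 1 : ℂ)‖ ≤ 1 := by
        by_cases hj : j = i
        · simp only [hj, if_true]
          exact hb u
        · simp only [hj, if_false, norm_one]
          exact le_refl _
      calc ‖(if j = i then c u else 1 : ℂ)‖ * ‖a j u‖ ≤ 1 * 1 :=
            mul_le_mul h1 ((ha j).bd u) (norm_nonneg _) zero_le_one
        _ = 1 := _root_.mul_one 1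
  · intro ξ
    show s ξ * c (ξ i) = _
    rw [ContinuousMultilinearMap.map_smul_univ (f := M) (c := fun j => if j = i then c (ξ j) else 1)
      (m := fun j => a j (ξ j)), h ξ, smul_eq_mul, mul_comm]
    congr 1
    rw [Finset.prod_ite_eq' Finset.univ i (fun j => c (ξ j))]
    simp

/-- Multiplication by a function `∑ d_k(ξ_i) ψ_k(ξ_j)`. -/
lemma Sch.mul_pair {n : ℕ} {s : (Fin n → ℝ) → ℂ} (hs : Sch n s) {i j : Fin n} (hij : i ≠ j)
    {N : ℕ} (hN : 0 < N) (d ψ : Fin N → ℝ → ℂ) (hd : ∀ k, Measurable (d k))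
    (hψ : ∀ k, Measurable (ψ k)) (hd1 : ∀ u, ∑ k, ‖d k u‖ ^ 2 ≤ 1)
    (hψ1 : ∀ u, ∑ k, ‖ψ k u‖ ^ 2 ≤ 1) :
    Sch n (fun ξ => s ξ * ∑ k, d k (ξ i) * ψ k (ξ j)) := by
  obtain ⟨H, i1, i2, i3, M, a, hM, ha, h⟩ := hs
  set k0 : Fin N := ⟨0, hN⟩ with hk0
  -- the index maps
  set κ : Fin n → Fin N → Fin N := fun m k => if m = i ∨ m = j then k else k0 with hκ
  set H' := PiLp 2 (fun _ : Fin N => H) with hH'
  set pr : Fin N → H' →L[ℂ] H := fun k => PiLp.proj 2 (fun _ : Fin N => H) k with hpr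
  have hprn : ∀ (x : H') (k : Fin N), ‖pr k x‖ ≤ ‖x‖ := by
    intro x k
    exact PiLp.norm_apply_le x k
  set M' : ContinuousMultilinearMap ℂ (fun _ : Fin n => H') ℂ :=
    ∑ k, M.compContinuousLinearMap fun m => pr (κ m k) with hM'
  have hM'a : ∀ X : Fin n → H', M' X = ∑ k, M fun m => pr (κ m k) (X m) := by
    intro X
    rw [hM', sum_apply]
    rfl
  -- the coefficients
  set cf : Fin n → Fin N → ℝ → ℂ := fun m k u =>
    if m = i then d k u else if m = j then ψ k u else if k = k0 then 1 else 0 with hcf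
  have hcfm : ∀ m k, Measurable (cf m k) := by
    intro m k
    simp only [hcf]
    by_cases h1 : m = i
    · simp only [h1, if_true]
      exact hd k
    · by_cases h2 : m = j
      · simp only [h2, hij.symm, if_true, if_false]
        exact hψ k
      · simp only [h1, h2, if_false]
        exact measurable_const
  have hcfb : ∀ m u, ∑ k, ‖cf m k u‖ ^ 2 ≤ 1 := by
    intro m u
    simp only [hcf]
    by_cases h1 : m = i
    · simp only [h1, if_true]
      exact hd1 u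
    · by_cases h2 : m = j
      · simp only [h2, hij.symm, if_true, if_false]
        exact hψ1 u
      · simp only [h1, h2, if_false]
        rw [Finset.sum_eq_single k0]
        · simp
        · intro k _ hk
          simp [hk]
        · intro hk
          exact absurd (Finset.mem_univ _) hk
  set a' : Fin n → ℝ → H' := fun m u => WithLp.toLp 2 fun k => cf m k u • a m u with ha'
  have hpra : ∀ m k u, pr k (a' m u) = cf m k u • a m u := fun m k u => rfl
  refine ⟨H', inferInstance, inferInstance, inferInstance, M', a', ?_, ?_, ?_⟩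
  · apply ContinuousMultilinearMap.opNorm_le_bound zero_le_one
    intro X
    rw [hM'a, one_mul]
    have hsplit : ∀ f : Fin n → ℝ, ∏ m, f m =
        f i * (f j * ∏ m ∈ (Finset.univ.erase i).erase j, f m) := by
      intro f
      rw [← Finset.mul_prod_erase Finset.univ f (Finset.mem_univ i),
        ← Finset.mul_prod_erase (Finset.univ.erase i) f
          (Finset.mem_erase.2 ⟨hij.symm, Finset.mem_univ j⟩)]
    set P : ℝ := ∏ m ∈ (Finset.univ.erase i).erase j, ‖X m‖ with hP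
    have hP0 : 0 ≤ P := Finset.prod_nonneg fun m _ => norm_nonneg _
    have hk : ∀ k : Fin N, ‖M fun m => pr (κ m k) (X m)‖ ≤ ‖X i k‖ * ‖X j k‖ * P := by
      intro k
      refine (M.le_opNorm _).trans ?_
      calc ‖M‖ * ∏ m, ‖pr (κ m k) (X m)‖ ≤ 1 * ∏ m, ‖pr (κ m k) (X m)‖ := by
            gcongr
        _ = ∏ m, ‖pr (κ m k) (X m)‖ := one_mul _
        _ = ‖pr (κ i k) (X i)‖ * (‖pr (κ j k) (X j)‖ *
            ∏ m ∈ (Finset.univ.erase i).erase j, ‖pr (κ m k) (X m)‖) := hsplit _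
        _ ≤ ‖X i k‖ * (‖X j k‖ * P) := by
            have e1 : κ i k = k := by simp [hκ]
            have e2 : κ j k = k := by simp [hκ]
            rw [e1, e2]
            have e3 : ∏ m ∈ (Finset.univ.erase i).erase j, ‖pr (κ m k) (X m)‖ ≤ P := by
              rw [hP]
              gcongr with m
              exact hprn _ _
            have e4 : ∀ x : H', ‖pr k x‖ = ‖x k‖ := fun x => rfl
            rw [e4, e4]
            gcongr
        _ = ‖X i k‖ * ‖X j k‖ * P := by ring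
    calc ‖∑ k, M fun m => pr (κ m k) (X m)‖ ≤ ∑ k, ‖M fun m => pr (κ m k) (X m)‖ :=
          norm_sum_le _ _
      _ ≤ ∑ k, ‖X i k‖ * ‖X j k‖ * P := Finset.sum_le_sum fun k _ => hk k
      _ = (∑ k, ‖X i k‖ * ‖X j k‖) * P := by rw [Finset.sum_mul]
      _ ≤ (‖X i‖ * ‖X j‖) * P := by
          gcongr
          have hcs := Finset.sum_mul_sq_le_sq_mul_sq Finset.univ (fun k => ‖X i k‖)
            (fun k => ‖X j k‖)
          rw [← PiLp.norm_sq_eq_of_L2, ← PiLp.norm_sq_eq_of_L2, ← mul_pow] at hcs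
          exact le_of_sq_le_sq hcs (by positivity)
      _ = ∏ m, ‖X m‖ := by rw [hsplit fun m => ‖X m‖]; ring
  · intro m
    constructor
    · have h1 : a' m = (fun x : Fin N → H => (WithLp.toLp 2 x : H')) ∘
          fun u => (fun k => cf m k u • a m u) := rfl
      rw [h1]
      apply (PiLp.continuous_toLp 2 (fun _ : Fin N => H)).comp_stronglyMeasurable
      exact tuple_meas (fun (k : Fin N) (u : ℝ) => cf m k u • a m u) fun k =>
        (hcfm m k).stronglyMeasurable.smul (ha m).meas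
    · intro u
      have h1 : ‖a' m u‖ ^ 2 ≤ 1 ^ 2 := by
        rw [PiLp.norm_sq_eq_of_L2]
        calc ∑ k, ‖(a' m u) k‖ ^ 2 = ∑ k, ‖cf m k u‖ ^ 2 * ‖a m u‖ ^ 2 := by
              apply Finset.sum_congr rfl
              intro k _
              have : (a' m u) k = cf m k u • a m u := rfl
              rw [this, norm_smul, mul_pow]
          _ = (∑ k, ‖cf m k u‖ ^ 2) * ‖a m u‖ ^ 2 := by rw [Finset.sum_mul]
          _ ≤ 1 * 1 ^ 2 := by
              gcongr
              · exact hcfb m u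
              · exact (ha m).bd u
          _ = 1 ^ 2 := by norm_num
      exact le_of_sq_le_sq h1 zero_le_one
  · intro ξ
    show s ξ * ∑ k, d k (ξ i) * ψ k (ξ j) = _
    rw [hM'a, h ξ, Finset.mul_sum]
    apply Finset.sum_congr rfl
    intro k _
    simp only [hpra]
    rw [ContinuousMultilinearMap.map_smul_univ, smul_eq_mul, mul_comm]
    congr 1
    have hsplit : ∀ f : Fin n → ℂ, ∏ m, f m =
        f i * (f j * ∏ m ∈ (Finset.univ.erase i).erase j, f m) := by
      intro f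
      rw [← Finset.mul_prod_erase Finset.univ f (Finset.mem_univ i),
        ← Finset.mul_prod_erase (Finset.univ.erase i) f
          (Finset.mem_erase.2 ⟨hij.symm, Finset.mem_univ j⟩)]
    rw [hsplit fun m => cf m (κ m k) (ξ m)]
    have e1 : κ i k = k := by simp [hκ]
    have e2 : κ j k = k := by simp [hκ]
    have e3 : ∏ m ∈ (Finset.univ.erase i).erase j, cf m (κ m k) (ξ m) = 1 := by
      apply Finset.prod_eq_one
      intro m hm
      have h1 : m ≠ j := (Finset.mem_erase.1 hm).1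
      have h2 : m ≠ i := (Finset.mem_erase.1 (Finset.mem_erase.1 hm).2).1
      simp [hκ, hcf, h1, h2]
    rw [e1, e2, e3, _root_.mul_one]
    simp [hcf, hij.symm]

end Pool.Agent.TH277.HT
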