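import Mathlib
import Pool.Agent.TH277.HT.E
set_option autoImplicit false
set_option linter.unusedSectionVars false

/-! Dyadic increments of functions of bounded `2`-variation on `[-1,1]`. -/

namespace Pool.Agent.TH277.HT

open MeasureTheory Set Complex
open scoped ENNReal NNReal

/-- The sum of the squares of the increments over non overlapping intervals of `[-1,1]` is at
most one. -/
def Var2 (h : ℝ → ℂ) : Prop :=
  ∀ (N : ℕ) (a b : ℕ → ℝ), (∀ k < N, -1 ≤ a k ∧ a k ≤ b k ∧ b k ≤ 1) →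
    (∀ k, k + 1 < N → b k ≤ a (k + 1)) → ∑ k ∈ Finset.range N, ‖h (b k) - h (a k)‖ ^ 2 ≤ 1

/-- dyadic points -/
noncomputable def pt (l k : ℕ) : ℝ := -1 + 2 * k / 2 ^ l

/-- dyadic index -/
noncomputable def kk (l : ℕ) (v : ℝ) : ℕ := ⌊(v + 1) * 2 ^ l / 2⌋₊

lemma kk_meas (l : ℕ) : Measurable (kk l) := by
  unfold kk
  exact Nat.measurable_floor.comp (by fun_prop)

lemma pt_two (l k : ℕ) : pt (l + 1) (2 * k) = pt l k := by
  unfold pt
  have : (2 : ℝ) ^ l ≠ 0 := by positivity
  push_cast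
  rw [pow_succ]
  field_simp

lemma pt_mono {l k k' : ℕ} (h : k ≤ k') : pt l k ≤ pt l k' := by
  unfold pt
  gcongr

lemma pt_zero (l : ℕ) : pt l 0 = -1 := by
  unfold pt
  simp

lemma pt_ge (l k : ℕ) : -1 ≤ pt l k := by
  rw [← pt_zero l]
  exact pt_mono (Nat.zero_le k)

lemma pt_full (l : ℕ) : pt l (2 ^ l) = 1 := by
  unfold pt
  have : (2 : ℝ) ^ l ≠ 0 := by positivity
  push_cast
  field_simp
  norm_num

lemma pt_le {l k : ℕ} (h : k ≤ 2 ^ l) : pt l k ≤ 1 := by
  rw [← pt_full l]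
  exact pt_mono h

lemma pt_succ (l k : ℕ) : pt l (k + 1) = pt l k + 2 / 2 ^ l := by
  unfold pt
  push_cast
  ring

lemma kk_lt {l : ℕ} {v : ℝ} (hv : v ∈ Ico (-1 : ℝ) 1) : kk l v < 2 ^ l := by
  unfold kk
  have h2 : (0 : ℝ) < 2 ^ l := by positivity
  rw [Nat.floor_lt (by have := hv.1; apply div_nonneg (mul_nonneg (by linarith) h2.le); norm_num)]
  push_cast
  have := hv.2
  rw [div_lt_iff₀ two_pos]
  nlinarith

lemma kk_le {l : ℕ} {v : ℝ} (hv : v ∈ Ico (-1 : ℝ) 1) : pt l (kk l v) ≤ v := by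
  have h2 : (0 : ℝ) < 2 ^ l := by positivity
  have h1 : ((kk l v : ℕ) : ℝ) ≤ (v + 1) * 2 ^ l / 2 := Nat.floor_le (by
    have := hv.1
    apply div_nonneg (mul_nonneg (by linarith) h2.le)
    norm_num)
  unfold pt
  have h3 : 2 * ((kk l v : ℕ) : ℝ) / 2 ^ l ≤ v + 1 := by
    rw [div_le_iff₀ h2]
    linarith
  linarith

lemma lt_kk (l : ℕ) (v : ℝ) : v < pt l (kk l v + 1) := by
  have h2 : (0 : ℝ) < 2 ^ l := by positivity
  have h1 : (v + 1) * 2 ^ l / 2 < ((kk l v : ℕ) : ℝ) + 1 := Nat.lt_floor_add_one _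
  unfold pt
  have h3 : v + 1 < 2 * ((kk l v + 1 : ℕ) : ℝ) / 2 ^ l := by
    rw [lt_div_iff₀ h2]
    push_cast
    linarith
  linarith

lemma kk_half (l : ℕ) (v : ℝ) : kk l v = kk (l + 1) v / 2 := by
  unfold kk
  have h1 : (v + 1) * 2 ^ l / 2 = ((v + 1) * 2 ^ (l + 1) / 2) / ((2 : ℕ) : ℝ) := by
    push_cast
    rw [pow_succ]
    ring
  rw [h1, Nat.floor_div_natCast]

lemma kk_pt (l k : ℕ) {θ : ℝ} (h0 : 0 ≤ θ) (h1 : θ < 2 / 2 ^ l) : kk l (pt l k + θ) = k := by
  have h2 : (0 : ℝ) < 2 ^ l := by positivity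
  unfold kk pt
  rw [Nat.floor_eq_iff]
  · have h3 : (-1 + 2 * (k : ℝ) / 2 ^ l + θ + 1) * 2 ^ l / 2 = k + θ * 2 ^ l / 2 := by
      field_simp
      ring
    rw [h3]
    rw [lt_div_iff₀ h2] at h1
    constructor
    · have : 0 ≤ θ * 2 ^ l / 2 := by positivity
      linarith
    · linarith
  · have h3 : (-1 + 2 * (k : ℝ) / 2 ^ l + θ + 1) * 2 ^ l / 2 = k + θ * 2 ^ l / 2 := by
      field_simp
      ring
    rw [h3]
    positivity

/-- The increments. -/
lemma osc {h : ℝ → ℂ} (hm : Measurable h) (hv : Var2 h) (L : ℕ) (ρ : ℝ → ℝ) (hρm : Measurable ρ)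
    (hρ : ∀ v ∈ Ico (-1 : ℝ) 1, pt L (kk L v) ≤ ρ v ∧ ρ v ≤ pt L (kk L v + 1)) :
    ∫⁻ v in Icc (-1 : ℝ) 1, ‖h (ρ v) - h (pt L (kk L v))‖ₑ ^ 2 ≤ ENNReal.ofReal (2 / 2 ^ L) := by
  set F : ℝ → ℝ≥0∞ := fun v => ‖h (ρ v) - h (pt L (kk L v))‖ₑ ^ 2 with hF
  have hptm : Measurable fun v : ℝ => pt L (kk L v) := by
    have h1 : Measurable fun k : ℕ => pt L k := measurable_from_nat
    exact h1.comp (kk_meas L)
  have hFm : Measurable F := ((hm.comp hρm).sub (hm.comp hptm)).enorm.pow_const 2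
  rw [← setLIntegral_congr (μ := volume) (Ico_ae_eq_Icc (a := (-1 : ℝ)) (b := 1)),
    ← lintegral_indicator measurableSet_Ico]
  have hstep : (0 : ℝ) < 2 / 2 ^ L := by positivity
  calc ∫⁻ v, (Ico (-1 : ℝ) 1).indicator F v
      ≤ ∫⁻ v, ∑ k ∈ Finset.range (2 ^ L), (Ico (pt L k) (pt L (k + 1))).indicator F v := by
        apply lintegral_mono
        intro v
        by_cases h1 : v ∈ Ico (-1 : ℝ) 1
        · simp only [indicator_of_mem h1]
          have h2 : F v = (Ico (pt L (kk L v)) (pt L (kk L v + 1))).indicator F v := by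
            rw [indicator_of_mem]
            exact ⟨kk_le h1, lt_kk L v⟩
          rw [h2]
          exact Finset.single_le_sum
            (f := fun k => (Ico (pt L k) (pt L (k + 1))).indicator F v) (fun _ _ => zero_le)
            (Finset.mem_range.2 (kk_lt h1))
        · simp only [indicator_of_notMem h1]
          exact zero_le
    _ = ∑ k ∈ Finset.range (2 ^ L), ∫⁻ v, (Ico (pt L k) (pt L (k + 1))).indicator F v :=
        lintegral_finset_sum _ fun k _ => hFm.indicator measurableSet_Ico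
    _ = ∑ k ∈ Finset.range (2 ^ L), ∫⁻ θ, (Ico 0 (2 / 2 ^ L : ℝ)).indicator
          (fun θ => F (pt L k + θ)) θ := by
        apply Finset.sum_congr rfl
        intro k _
        rw [← lintegral_add_left_eq_self _ (pt L k)]
        apply lintegral_congr
        intro θ
        by_cases h1 : θ ∈ Ico 0 (2 / 2 ^ L : ℝ)
        · rw [indicator_of_mem h1, indicator_of_mem]
          rw [pt_succ]
          exact ⟨by linarith [h1.1], by linarith [h1.2]⟩
        · rw [indicator_of_notMem h1, indicator_of_notMem]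
          rw [pt_succ]
          intro h2
          exact h1 ⟨by linarith [h2.1], by linarith [h2.2]⟩
    _ = ∫⁻ θ, ∑ k ∈ Finset.range (2 ^ L), (Ico 0 (2 / 2 ^ L : ℝ)).indicator
          (fun θ => F (pt L k + θ)) θ := by
        rw [lintegral_finset_sum]
        intro k _
        apply Measurable.indicator _ measurableSet_Ico
        exact hFm.comp (measurable_const_add _)
    _ ≤ ∫⁻ θ, (Ico 0 (2 / 2 ^ L : ℝ)).indicator (fun _ => 1) θ := by
        apply lintegral_mono
        intro θ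
        simp only
        by_cases h1 : θ ∈ Ico 0 (2 / 2 ^ L : ℝ)
        · simp only [indicator_of_mem h1]
          have h2 : ∀ k, kk L (pt L k + θ) = k := fun k => kk_pt L k h1.1 h1.2
          have h3 : ∀ k < 2 ^ L, pt L k ≤ ρ (pt L k + θ) ∧ ρ (pt L k + θ) ≤ pt L (k + 1) := by
            intro k hk
            have h4 : pt L k + θ ∈ Ico (-1 : ℝ) 1 := by
              constructor
              · linarith [pt_ge L k, h1.1]
              · have h5 : pt L (k + 1) ≤ 1 := pt_le hk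
                rw [pt_succ] at h5
                linarith [h1.2]
            have h6 := hρ _ h4
            rw [h2 k] at h6
            exact h6
          have h4 := hv (2 ^ L) (fun k => pt L k) (fun k => ρ (pt L k + θ)) (by
            intro k hk
            exact ⟨pt_ge L k, (h3 k hk).1, (h3 k hk).2.trans (pt_le hk)⟩) (by
            intro k hk
            exact (h3 k (by omega)).2)
          calc ∑ k ∈ Finset.range (2 ^ L), F (pt L k + θ)
              = ∑ k ∈ Finset.range (2 ^ L), ENNReal.ofReal (‖h (ρ (pt L k + θ)) -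
                  h (pt L k)‖ ^ 2) := by
                apply Finset.sum_congr rfl
                intro k _
                simp only [hF]
                rw [h2 k, ENNReal.ofReal_pow (norm_nonneg _), ofReal_norm]
            _ = ENNReal.ofReal (∑ k ∈ Finset.range (2 ^ L), ‖h (ρ (pt L k + θ)) -
                  h (pt L k)‖ ^ 2) := by
                rw [ENNReal.ofReal_sum_of_nonneg]
                intro k _
                positivity
            _ ≤ 1 := ENNReal.ofReal_le_one.2 h4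
        · simp only [indicator_of_notMem h1]
          simp
    _ = ENNReal.ofReal (2 / 2 ^ L) := by
        rw [lintegral_indicator measurableSet_Ico, setLIntegral_one, Real.volume_Ico, sub_zero]

/-- coefficients of the dyadic increments -/
noncomputable def dd (g : ℝ × ℝ → ℂ) (l k : ℕ) (u : ℝ) : ℂ :=
  g (u, pt (l + 1) (2 * k + 1)) - g (u, pt (l + 1) (2 * k))

/-- right halves of the dyadic intervals -/
noncomputable def ps (l k : ℕ) (v : ℝ) : ℂ :=
  if v ∈ Ico (-1 : ℝ) 1 ∧ kk (l + 1) v = 2 * k + 1 then 1 else 0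

/-- dyadic increments -/
noncomputable def DD (g : ℝ × ℝ → ℂ) (l : ℕ) (u v : ℝ) : ℂ :=
  ∑ k : Fin (2 ^ l), dd g l k u * ps l k v

lemma dd_meas {g : ℝ × ℝ → ℂ} (hg : Measurable g) (l k : ℕ) : Measurable (dd g l k) := by
  unfold dd
  exact (hg.comp (by fun_prop : Measurable fun u : ℝ => ((u, pt (l + 1) (2 * k + 1)) : ℝ × ℝ))).sub
    (hg.comp (by fun_prop : Measurable fun u : ℝ => ((u, pt (l + 1) (2 * k)) : ℝ × ℝ)))

lemma ps_meas (l k : ℕ) : Measurable (ps l k) := by
  unfold ps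
  apply Measurable.ite _ measurable_const measurable_const
  exact measurableSet_Ico.inter ((kk_meas (l + 1)) (measurableSet_singleton (2 * k + 1)))

lemma dd_sum {g : ℝ × ℝ → ℂ} {u : ℝ} (hv : Var2 fun v => g (u, v)) (l : ℕ) :
    ∑ k : Fin (2 ^ l), ‖dd g l k u‖ ^ 2 ≤ 1 := by
  have h1 := hv (2 ^ l) (fun k => pt (l + 1) (2 * k)) (fun k => pt (l + 1) (2 * k + 1)) (by
    intro k hk
    refine ⟨pt_ge _ _, pt_mono (by omega), pt_le ?_⟩
    rw [pow_succ]
    omega) (by
    intro k hk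
    exact pt_mono (by omega))
  rw [← Fin.sum_univ_eq_sum_range (fun k => ‖g (u, pt (l + 1) (2 * k + 1)) -
    g (u, pt (l + 1) (2 * k))‖ ^ 2)] at h1
  exact h1

lemma ps_sum (l : ℕ) (v : ℝ) : ∑ k : Fin (2 ^ l), ‖ps l k v‖ ^ 2 ≤ 1 := by
  by_cases h : ∃ k : Fin (2 ^ l), v ∈ Ico (-1 : ℝ) 1 ∧ kk (l + 1) v = 2 * k + 1
  · obtain ⟨k, hk⟩ := h
    rw [Finset.sum_eq_single k]
    · unfold ps
      rw [if_pos hk]
      simp
    · intro k' _ hk'
      unfold ps
      rw [if_neg]
      · simp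
      · rintro ⟨-, h2⟩
        apply hk'
        ext
        omega
    · intro h1
      exact absurd (Finset.mem_univ _) h1
  · rw [Finset.sum_eq_zero]
    · norm_num
    · intro k _
      unfold ps
      rw [if_neg fun h1 => h ⟨k, h1⟩]
      simp

lemma DD_eq (g : ℝ × ℝ → ℂ) (l : ℕ) (u : ℝ) {v : ℝ} (hv : v ∈ Ico (-1 : ℝ) 1) :
    DD g l u v = g (u, pt (l + 1) (kk (l + 1) v)) - g (u, pt l (kk l v)) := by
  have h1 := kk_half l v
  have h2 : kk l v < 2 ^ l := kk_lt hv
  unfold DD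
  rcases Nat.even_or_odd' (kk (l + 1) v) with ⟨k, hk | hk⟩
  · have h3 : kk l v = k := by omega
    rw [hk, h3, pt_two, sub_self]
    apply Finset.sum_eq_zero
    intro k' _
    unfold ps
    rw [if_neg, mul_zero]
    rintro ⟨-, h4⟩
    omega
  · have h3 : kk l v = k := by omega
    rw [Finset.sum_eq_single (⟨k, by omega⟩ : Fin (2 ^ l))]
    · unfold ps dd
      rw [if_pos ⟨hv, hk⟩, mul_one, hk, h3, ← pt_two l k]
    · intro k' _ hk'
      unfold ps
      rw [if_neg, mul_zero]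
      rintro ⟨-, h4⟩
      apply hk'
      ext
      simp only
      omega
    · intro h4
      exact absurd (Finset.mem_univ _) h4

lemma tele (g : ℝ × ℝ → ℂ) (L : ℕ) (u : ℝ) {v : ℝ} (hv : v ∈ Ico (-1 : ℝ) 1) :
    g (u, -1) + ∑ l ∈ Finset.range L, DD g l u v = g (u, pt L (kk L v)) := by
  induction L with
  | zero =>
    have h1 : kk 0 v = 0 := by
      have := kk_lt (l := 0) hv
      simpa using this
    rw [h1, pt_zero]
    simp
  | succ L ih =>
    rw [Finset.sum_range_succ, ← add_assoc, ih, DD_eq g L u hv]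
    ring

lemma DD_L2 {g : ℝ × ℝ → ℂ} (hg : Measurable g) {u : ℝ} (hv : Var2 fun v => g (u, v)) (l : ℕ) :
    ∫⁻ v in Icc (-1 : ℝ) 1, ‖DD g l u v‖ₑ ^ 2 ≤ ENNReal.ofReal (2 / 2 ^ l) := by
  have hgm : Measurable fun v => g (u, v) := hg.comp measurable_prodMk_left
  have hptm : Measurable fun v : ℝ => pt (l + 1) (kk (l + 1) v) := by
    have h1 : Measurable fun k : ℕ => pt (l + 1) k := measurable_from_nat
    exact h1.comp (kk_meas (l + 1))
  refine le_trans (le_of_eq ?_) (osc hgm hv l (fun v => pt (l + 1) (kk (l + 1) v)) hptm ?_)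
  · rw [← setLIntegral_congr (μ := volume) (Ico_ae_eq_Icc (a := (-1 : ℝ)) (b := 1)),
      ← setLIntegral_congr (μ := volume) (Ico_ae_eq_Icc (a := (-1 : ℝ)) (b := 1))]
    apply setLIntegral_congr_fun measurableSet_Ico
    intro v hv
    simp only
    rw [DD_eq g l u hv]
  · intro v hv
    have h1 := kk_half l v
    constructor
    · rw [← pt_two l]
      exact pt_mono (by omega)
    · rw [← pt_two l]
      exact pt_mono (by omega)

lemma rest_L2 {g : ℝ × ℝ → ℂ} (hg : Measurable g) {u : ℝ} (hv : Var2 fun v => g (u, v)) (L : ℕ) :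
    ∫⁻ v in Icc (-1 : ℝ) 1, ‖g (u, v) - (g (u, -1) + ∑ l ∈ Finset.range L, DD g l u v)‖ₑ ^ 2 ≤
      ENNReal.ofReal (2 / 2 ^ L) := by
  have hgm : Measurable fun v => g (u, v) := hg.comp measurable_prodMk_left
  refine le_trans (le_of_eq ?_) (osc hgm hv L (fun v => v) measurable_id ?_)
  · rw [← setLIntegral_congr (μ := volume) (Ico_ae_eq_Icc (a := (-1 : ℝ)) (b := 1)),
      ← setLIntegral_congr (μ := volume) (Ico_ae_eq_Icc (a := (-1 : ℝ)) (b := 1))]
    apply setLIntegral_congr_fun measurableSet_Ico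
    intro v hv
    simp only
    rw [tele g L u hv]
  · intro v hv
    exact ⟨kk_le hv, (lt_kk L v).le⟩

end Pool.Agent.TH277.HT
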