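import Mathlib
import Pool.Agent.TH277.HT.F
set_option autoImplicit false
set_option linter.unusedSectionVars false

/-! Products with functions of bounded `2`-variation in one of two coordinates. -/

namespace Pool.Agent.TH277.HT

open MeasureTheory Set Complex Filter Topology
open scoped ENNReal NNReal

attribute [local irreducible] PP W E1

/-- Integration over the cube of a function of two coordinates. -/
lemma cube2 {n : ℕ} {i j : Fin n} (hij : i ≠ j) {Φ : ℝ × ℝ → ℝ≥0∞} (hΦ : Measurable Φ)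
    {B : ℝ≥0∞} (hB : ∀ u, ∫⁻ v in Icc (-1 : ℝ) 1, Φ (u, v) ≤ B) :
    ∫⁻ ξ in Icc (-1 : Fin n → ℝ) 1, Φ (ξ i, ξ j) ≤ 2 ^ n * B := by
  obtain ⟨m, rfl⟩ : ∃ m, n = m + 1 := ⟨n - 1, by have := i.2; omega⟩
  obtain ⟨i', hi'⟩ := Fin.exists_succAbove_eq hij
  have h1 := (measurePreserving_piFinSuccAbove (fun _ : Fin (m + 1) => (volume : Measure ℝ)) j).symm
  have hm : Measurable fun ξ : Fin (m + 1) → ℝ => Φ (ξ i, ξ j) :=
    hΦ.comp (by fun_prop : Measurable fun ξ : Fin (m + 1) → ℝ => ((ξ i, ξ j) : ℝ × ℝ))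
  rw [← lintegral_indicator measurableSet_Icc, volume_pi,
    ← h1.lintegral_comp_emb (MeasurableEquiv.measurableEmbedding _)]
  have h2 : ∀ p : ℝ × (Fin m → ℝ), (Icc (-1 : Fin (m + 1) → ℝ) 1).indicator
      (fun ξ => Φ (ξ i, ξ j)) ((MeasurableEquiv.piFinSuccAbove
        (fun _ : Fin (m + 1) => ℝ) j).symm p) ≤
      (Icc (-1 : ℝ) 1).indicator (fun v => (Icc (-1 : Fin m → ℝ) 1).indicator
        (fun r => Φ (r i', v)) p.2) p.1 := by
    intro p
    set ξ : Fin (m + 1) → ℝ := (MeasurableEquiv.piFinSuccAbove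
        (fun _ : Fin (m + 1) => ℝ) j).symm p with hξ
    have e1 : ξ j = p.1 := by
      simp [hξ, MeasurableEquiv.piFinSuccAbove_symm_apply, Fin.insertNthEquiv]
    have e2 : ∀ k, ξ (j.succAbove k) = p.2 k := by
      intro k
      simp [hξ, MeasurableEquiv.piFinSuccAbove_symm_apply, Fin.insertNthEquiv]
    by_cases hc : ξ ∈ Icc (-1 : Fin (m + 1) → ℝ) 1
    · rw [indicator_of_mem hc, indicator_of_mem, indicator_of_mem]
      · rw [← hi', e2, e1]
      · constructor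
        · intro k
          rw [← e2 k]
          exact hc.1 _
        · intro k
          rw [← e2 k]
          exact hc.2 _
      · rw [← e1]
        exact ⟨hc.1 j, hc.2 j⟩
    · rw [indicator_of_notMem hc]
      exact zero_le
  refine (lintegral_mono h2).trans ?_
  have hm2 : Measurable fun p : ℝ × (Fin m → ℝ) => (Icc (-1 : ℝ) 1).indicator
      (fun v => (Icc (-1 : Fin m → ℝ) 1).indicator (fun r => Φ (r i', v)) p.2) p.1 := by
    have h3 : (fun p : ℝ × (Fin m → ℝ) => (Icc (-1 : ℝ) 1).indicator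
        (fun v => (Icc (-1 : Fin m → ℝ) 1).indicator (fun r => Φ (r i', v)) p.2) p.1) =
        (Icc (-1 : ℝ) 1 ×ˢ Icc (-1 : Fin m → ℝ) 1).indicator fun p => Φ (p.2 i', p.1) := by
      ext p
      by_cases h4 : p.1 ∈ Icc (-1 : ℝ) 1
      · by_cases h5 : p.2 ∈ Icc (-1 : Fin m → ℝ) 1
        · rw [indicator_of_mem h4, indicator_of_mem h5, indicator_of_mem (mk_mem_prod h4 h5)]
        · rw [indicator_of_mem h4, indicator_of_notMem h5, indicator_of_notMem]
          exact fun h6 => h5 h6.2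
      · rw [indicator_of_notMem h4, indicator_of_notMem]
        exact fun h6 => h4 h6.1
    rw [h3]
    apply Measurable.indicator _ (measurableSet_Icc.prod measurableSet_Icc)
    exact hΦ.comp (by fun_prop : Measurable fun p : ℝ × (Fin m → ℝ) => ((p.2 i', p.1) : ℝ × ℝ))
  rw [lintegral_prod_symm _ hm2.aemeasurable]
  calc ∫⁻ r : Fin m → ℝ, ∫⁻ v : ℝ, (Icc (-1 : ℝ) 1).indicator
        (fun v => (Icc (-1 : Fin m → ℝ) 1).indicator (fun r => Φ (r i', v)) r) v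
        ∂volume ∂(Measure.pi fun _ => volume)
      ≤ ∫⁻ r : Fin m → ℝ, (Icc (-1 : Fin m → ℝ) 1).indicator (fun _ => B) r
        ∂(Measure.pi fun _ => volume) := by
        apply lintegral_mono
        intro r
        simp only
        by_cases h5 : r ∈ Icc (-1 : Fin m → ℝ) 1
        · simp only [indicator_of_mem h5]
          rw [lintegral_indicator measurableSet_Icc]
          exact hB _
        · simp only [indicator_of_notMem h5]
          simp
    _ = 2 ^ m * B := by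
        rw [← volume_pi, lintegral_indicator measurableSet_Icc, setLIntegral_const, cube_vol,
          mul_comm]
    _ ≤ 2 ^ (m + 1) * B := by
        gcongr
        · norm_num
        · omega

lemma DD_meas {g : ℝ × ℝ → ℂ} (hg : Measurable g) (l : ℕ) :
    Measurable fun p : ℝ × ℝ => DD g l p.1 p.2 := by
  unfold DD
  apply Finset.measurable_sum
  intro k _
  exact ((dd_meas hg l k).comp measurable_fst).mul ((ps_meas l k).comp measurable_snd)

attribute [local irreducible] DD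

lemma I1_mul {n : ℕ} {s : (Fin n → ℝ) → ℂ} (hs : Sch n s) {t : (Fin n → ℝ) → ℂ}
    (ht : Measurable t) {B : ℝ≥0∞} (hB : ∫⁻ ξ in Icc (-1 : Fin n → ℝ) 1, ‖t ξ‖ₑ ^ 2 ≤ B) :
    I1 (fun ξ => s ξ * t ξ) ≤ (I1 s) ^ (1 / 2 : ℝ) * B ^ (1 / 2 : ℝ) := by
  unfold I1
  have hsm := hs.meas.measurable
  calc ∫⁻ ξ in Icc (-1 : Fin n → ℝ) 1, ‖s ξ * t ξ‖ₑ
      ≤ ∫⁻ ξ in Icc (-1 : Fin n → ℝ) 1, ‖s ξ‖ₑ ^ (1 / 2 : ℝ) * (‖t ξ‖ₑ ^ 2) ^ (1 / 2 : ℝ) := by
        apply lintegral_mono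
        intro ξ
        simp only
        rw [enorm_mul, ← ENNReal.rpow_natCast ‖t ξ‖ₑ, ← ENNReal.rpow_mul]
        have h1 : ((2 : ℕ) : ℝ) * (1 / 2) = 1 := by norm_num
        rw [h1, ENNReal.rpow_one]
        gcongr
        have h2 : ‖s ξ‖ₑ ≤ 1 := by
          rw [← ofReal_norm]
          exact ENNReal.ofReal_le_one.2 (hs.le ξ)
        calc ‖s ξ‖ₑ = ‖s ξ‖ₑ ^ (1 : ℝ) := (ENNReal.rpow_one _).symm
          _ ≤ ‖s ξ‖ₑ ^ (1 / 2 : ℝ) := ENNReal.rpow_le_rpow_of_exponent_ge h2 (by norm_num)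
    _ ≤ (∫⁻ ξ in Icc (-1 : Fin n → ℝ) 1, ‖s ξ‖ₑ) ^ (1 / 2 : ℝ) *
        (∫⁻ ξ in Icc (-1 : Fin n → ℝ) 1, ‖t ξ‖ₑ ^ 2) ^ (1 / 2 : ℝ) :=
        ENNReal.lintegral_mul_norm_pow_le hsm.enorm.aemeasurable
          (ht.enorm.pow_const 2).aemeasurable (by norm_num) (by norm_num) (by norm_num)
    _ ≤ _ := by gcongr

/-- The estimate for all products with functions of the class. -/
def Good (n : ℕ) (q : ℝ) (C : ℝ≥0∞) (δ : ℝ) (G : (Fin n → ℝ) → ℂ) : Prop :=
  ∀ s : (Fin n → ℝ) → ℂ, Sch n s → eLpNorm' (EE fun ξ => s ξ * G ξ) q volume ≤ C * (I1 s) ^ δ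

lemma EE_add {n : ℕ} {f g : (Fin n → ℝ) → ℂ} (hf : Measurable f) (hg : Measurable g)
    {A B : ℝ} (hfb : ∀ ξ, ‖f ξ‖ ≤ A) (hgb : ∀ ξ, ‖g ξ‖ ≤ B) :
    EE (fun ξ => f ξ + g ξ) = EE f + EE g := by
  have hi : ∀ (h : (Fin n → ℝ) → ℂ) (A : ℝ) (_ : Measurable h) (_ : ∀ ξ, ‖h ξ‖ ≤ A)
      (y : (Fin n → ℝ) × ℝ), IntegrableOn
      (fun ξ => ch (∑ j, ξ j * y.1 j + (∑ j, ξ j ^ 2) * y.2) * h ξ) (Icc (-1 : Fin n → ℝ) 1) := by
    intro h A hh hA y
    have hm : StronglyMeasurable fun ξ : Fin n → ℝ =>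
        ch (∑ j, ξ j * y.1 j + (∑ j, ξ j ^ 2) * y.2) * h ξ :=
      (ch_cont.comp (by fun_prop : Continuous fun ξ : Fin n → ℝ =>
        (∑ j, ξ j * y.1 j + (∑ j, ξ j ^ 2) * y.2))).stronglyMeasurable.mul hh.stronglyMeasurable
    apply IntegrableOn.of_bound _ hm.aestronglyMeasurable A
    · refine ae_of_all _ fun ξ => ?_
      rw [norm_mul, ch_norm, one_mul]
      exact hA ξ
    · rw [cube_vol]
      exact ENNReal.pow_lt_top (by norm_num)
  ext y
  simp only [Pi.add_apply]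
  unfold EE
  rw [← integral_add (hi f A hf hfb y) (hi g B hg hgb y)]
  apply integral_congr_ae
  refine ae_of_all _ fun ξ => ?_
  simp only
  ring

/-- One more factor. -/
theorem step (n : ℕ) (q : ℝ) (hq1 : 1 ≤ q) (C : ℝ≥0∞) (hC : C ≠ ⊤) (δ : ℝ) (hδ : 0 < δ) :
    ∃ C' : ℝ≥0∞, C' ≠ ⊤ ∧ ∀ G : (Fin n → ℝ) → ℂ, Measurable G → (∀ ξ, ‖G ξ‖ ≤ 1) →
      Good n q C δ G → ∀ i j : Fin n, i ≠ j → ∀ g : ℝ × ℝ → ℂ, Measurable g →
        (∀ p, ‖g p‖ ≤ 1) → (∀ u, Var2 fun v => g (u, v)) →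
        Good n q C' (δ / 2) fun ξ => g (ξ i, ξ j) * G ξ := by
  set r : ℝ≥0∞ := ENNReal.ofReal ((1 / 2 : ℝ) ^ (δ / 2)) with hr
  have hr1 : r < 1 := by
    rw [hr, ← ENNReal.ofReal_one]
    apply (ENNReal.ofReal_lt_ofReal_iff one_pos).2
    exact Real.rpow_lt_one (by norm_num) (by norm_num) (by linarith)
  set S : ℝ≥0∞ := ((2 : ℝ≥0∞) ^ n * ENNReal.ofReal 2) ^ (δ / 2) with hS
  have hStop : S ≠ ⊤ := by
    rw [hS]
    apply ENNReal.rpow_ne_top_of_nonneg (by linarith)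
    exact ENNReal.mul_ne_top (ENNReal.pow_ne_top (by norm_num)) ENNReal.ofReal_ne_top
  set C' : ℝ≥0∞ := C * (((2 : ℝ≥0∞) ^ n) ^ (δ / 2) + S * (1 - r)⁻¹) with hC'
  have hC't : C' ≠ ⊤ := by
    rw [hC']
    apply ENNReal.mul_ne_top hC
    apply ENNReal.add_ne_top.2
    constructor
    · exact ENNReal.rpow_ne_top_of_nonneg (by linarith) (ENNReal.pow_ne_top (by norm_num))
    · apply ENNReal.mul_ne_top hStop
      rw [ENNReal.inv_ne_top]
      exact (tsub_pos_of_lt hr1).ne'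
  refine ⟨C', hC't, ?_⟩
  intro G hGm hGb hG i j hij g hg hgb hv s hs
  have hq0 : 0 < q := by linarith
  -- the pieces
  set s0 : (Fin n → ℝ) → ℂ := fun ξ => s ξ * g (ξ i, -1) with hs0
  set sl : ℕ → (Fin n → ℝ) → ℂ := fun l ξ => s ξ * DD g l (ξ i) (ξ j) with hsl
  have hs0S : Sch n s0 := by
    apply hs.mul_one i (fun u => g (u, -1))
    · exact hg.comp measurable_prodMk_right
    · exact fun u => hgb _
  have hslS : ∀ l, Sch n (sl l) := by
    intro l
    have h1 : sl l = fun ξ => s ξ * ∑ k : Fin (2 ^ l), dd g l k (ξ i) * ps l k (ξ j) := by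
      ext ξ
      simp only [hsl]
      unfold DD
      rfl
    rw [h1]
    exact hs.mul_pair hij (Nat.two_pow_pos l) (fun k => dd g l k) (fun k => ps l k)
      (fun k => dd_meas hg l k) (fun k => ps_meas l k) (fun u => dd_sum (hv u) l)
      (fun v => ps_sum l v)
  -- the bounds
  have hb0 : eLpNorm' (EE fun ξ => s0 ξ * G ξ) q volume ≤
      C * (((2 : ℝ≥0∞) ^ n) ^ (δ / 2)) * (I1 s) ^ (δ / 2) := by
    refine (hG s0 hs0S).trans ?_
    have h1 : I1 s0 ≤ I1 s := by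
      unfold I1
      apply lintegral_mono
      intro ξ
      simp only [hs0]
      rw [enorm_mul]
      have h2 : ‖g (ξ i, -1)‖ₑ ≤ 1 := by
        rw [← ofReal_norm]
        exact ENNReal.ofReal_le_one.2 (hgb _)
      calc ‖s ξ‖ₑ * ‖g (ξ i, -1)‖ₑ ≤ ‖s ξ‖ₑ * 1 := by gcongr
        _ = ‖s ξ‖ₑ := mul_one _
    calc C * I1 s0 ^ δ ≤ C * I1 s ^ δ := by gcongr
      _ = C * (I1 s ^ (δ / 2) * I1 s ^ (δ / 2)) := by
          rw [← ENNReal.rpow_add_of_nonneg _ _ (by linarith) (by linarith), add_halves]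
      _ ≤ C * (((2 : ℝ≥0∞) ^ n) ^ (δ / 2) * I1 s ^ (δ / 2)) := by
          gcongr
          exact I1_le s hs.le
      _ = _ := by ring
  have hbl : ∀ l, eLpNorm' (EE fun ξ => sl l ξ * G ξ) q volume ≤
      C * (S * r ^ l) * (I1 s) ^ (δ / 2) := by
    intro l
    refine (hG (sl l) (hslS l)).trans ?_
    have h1 : I1 (sl l) ≤ (I1 s) ^ (1 / 2 : ℝ) *
        ((2 : ℝ≥0∞) ^ n * ENNReal.ofReal (2 / 2 ^ l)) ^ (1 / 2 : ℝ) := by
      refine I1_mul hs (t := fun ξ => DD g l (ξ i) (ξ j)) ?_ ?_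
      · exact (DD_meas hg l).comp
          (by fun_prop : Measurable fun ξ : Fin n → ℝ => ((ξ i, ξ j) : ℝ × ℝ))
      · exact cube2 hij (Φ := fun p => ‖DD g l p.1 p.2‖ₑ ^ 2) ((DD_meas hg l).enorm.pow_const 2)
          fun u => DD_L2 hg (hv u) l
    calc C * I1 (sl l) ^ δ ≤ C * ((I1 s) ^ (1 / 2 : ℝ) *
        ((2 : ℝ≥0∞) ^ n * ENNReal.ofReal (2 / 2 ^ l)) ^ (1 / 2 : ℝ)) ^ δ := by gcongr
      _ = C * (S * r ^ l) * (I1 s) ^ (δ / 2) := by
          rw [ENNReal.mul_rpow_of_nonneg _ _ hδ.le, ← ENNReal.rpow_mul, ← ENNReal.rpow_mul,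
            show (1 / 2 : ℝ) * δ = δ / 2 by ring]
          have h2 : (2 : ℝ) / 2 ^ l = 2 * (1 / 2) ^ l := by
            rw [one_div, inv_pow]
            rfl
          have h4 : (2 : ℝ≥0∞) ^ n * (ENNReal.ofReal 2 * ENNReal.ofReal ((1 / 2 : ℝ) ^ l)) =
              ((2 : ℝ≥0∞) ^ n * ENNReal.ofReal 2) * ENNReal.ofReal ((1 / 2 : ℝ) ^ l) := by ring
          rw [h2, ENNReal.ofReal_mul (by norm_num), h4,
            ENNReal.mul_rpow_of_nonneg _ _ (by linarith : 0 ≤ δ / 2)]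
          have h3 : ENNReal.ofReal ((1 / 2 : ℝ) ^ l) ^ (δ / 2) = r ^ l := by
            rw [hr, ENNReal.ofReal_rpow_of_nonneg (by positivity) (by linarith),
              ← ENNReal.ofReal_pow (by positivity)]
            congr 1
            rw [← Real.rpow_natCast, ← Real.rpow_mul (by norm_num), ← Real.rpow_natCast,
              ← Real.rpow_mul (by norm_num), mul_comm]
          rw [h3]
          ring
  -- the partial sums
  set fL : ℕ → (Fin n → ℝ) → ℂ := fun L ξ =>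
    s ξ * ((g (ξ i, -1) + ∑ l ∈ Finset.range L, DD g l (ξ i) (ξ j)) * G ξ) with hfL
  have hslm : ∀ l, Measurable fun ξ => sl l ξ * G ξ := fun l => (hslS l).meas.measurable.mul hGm
  have hslb : ∀ l ξ, ‖sl l ξ * G ξ‖ ≤ 1 := by
    intro l ξ
    rw [norm_mul]
    calc ‖sl l ξ‖ * ‖G ξ‖ ≤ 1 * 1 := mul_le_mul ((hslS l).le ξ) (hGb ξ) (norm_nonneg _) zero_le_one
      _ = 1 := mul_one 1
  have hfLm : ∀ L, Measurable (fL L) ∧ ∃ A : ℝ, ∀ ξ, ‖fL L ξ‖ ≤ A := by
    intro L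
    induction L with
    | zero =>
      have h1 : fL 0 = fun ξ => s0 ξ * G ξ := by
        ext ξ
        simp only [hfL, hs0, Finset.range_zero, Finset.sum_empty, add_zero]
        ring
      rw [h1]
      refine ⟨hs0S.meas.measurable.mul hGm, 1, fun ξ => ?_⟩
      rw [norm_mul]
      calc ‖s0 ξ‖ * ‖G ξ‖ ≤ 1 * 1 := mul_le_mul (hs0S.le ξ) (hGb ξ) (norm_nonneg _) zero_le_one
        _ = 1 := mul_one 1
    | succ L ih =>
      have h1 : fL (L + 1) = fun ξ => fL L ξ + sl L ξ * G ξ := by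
        ext ξ
        simp only [hfL, hsl, Finset.sum_range_succ]
        ring
      rw [h1]
      obtain ⟨h2, A, hA⟩ := ih
      refine ⟨h2.add (hslm L), A + 1, fun ξ => (norm_add_le _ _).trans ?_⟩
      exact add_le_add (hA ξ) (hslb L ξ)
  have hsum : ∀ L, eLpNorm' (EE (fL L)) q volume ≤
      C * (((2 : ℝ≥0∞) ^ n) ^ (δ / 2) + S * ∑ l ∈ Finset.range L, r ^ l) * (I1 s) ^ (δ / 2) := by
    intro L
    induction L with
    | zero =>
      have h1 : fL 0 = fun ξ => s0 ξ * G ξ := by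
        ext ξ
        simp only [hfL, hs0, Finset.range_zero, Finset.sum_empty, add_zero]
        ring
      rw [h1]
      simpa using hb0
    | succ L ih =>
      have h1 : fL (L + 1) = fun ξ => fL L ξ + sl L ξ * G ξ := by
        ext ξ
        simp only [hfL, hsl, Finset.sum_range_succ]
        ring
      obtain ⟨h2, A, hA⟩ := hfLm L
      rw [h1, EE_add h2 (hslm L) hA (hslb L)]
      refine (eLpNorm'_add_le (EE_meas h2.stronglyMeasurable).aestronglyMeasurable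
        (EE_meas (hslm L).stronglyMeasurable).aestronglyMeasurable hq1).trans ?_
      refine (add_le_add ih (hbl L)).trans (le_of_eq ?_)
      rw [Finset.sum_range_succ]
      ring
  have hunif : ∀ L, eLpNorm' (EE (fL L)) q volume ≤ C' * (I1 s) ^ (δ / 2) := by
    intro L
    refine (hsum L).trans ?_
    rw [hC']
    gcongr
    rw [← ENNReal.tsum_geometric]
    exact ENNReal.sum_le_tsum _
  -- the limit
  set f : (Fin n → ℝ) → ℂ := fun ξ => s ξ * (g (ξ i, ξ j) * G ξ) with hf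
  have hgm2 : Measurable fun ξ : Fin n → ℝ => g (ξ i, ξ j) :=
    hg.comp (by fun_prop : Measurable fun ξ : Fin n → ℝ => ((ξ i, ξ j) : ℝ × ℝ))
  have hfm : Measurable f := hs.meas.measurable.mul (hgm2.mul hGm)
  have hfb : ∀ ξ, ‖f ξ‖ ≤ 1 := by
    intro ξ
    simp only [hf]
    rw [norm_mul, norm_mul]
    calc ‖s ξ‖ * (‖g (ξ i, ξ j)‖ * ‖G ξ‖) ≤ 1 * (1 * 1) := by
          gcongr
          · exact hs.le ξ
          · exact hgb _
          · exact hGb ξ
      _ = 1 := by norm_num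
  have hdiff : ∀ L y, ‖EE f y - EE (fL L) y‖ₑ ≤
      (I1 s) ^ (1 / 2 : ℝ) * ((2 : ℝ≥0∞) ^ n * ENNReal.ofReal (2 / 2 ^ L)) ^ (1 / 2 : ℝ) := by
    intro L y
    obtain ⟨h2, A, hA⟩ := hfLm L
    have h3 : EE f y - EE (fL L) y = EE (fun ξ => f ξ + -(fL L ξ)) y := by
      have hneg : Measurable fun ξ => -(fL L ξ) := h2.neg
      rw [EE_add hfm hneg hfb (B := A) (fun ξ => by
        rw [norm_neg]
        exact hA ξ)]
      simp only [Pi.add_apply]
      rw [sub_eq_add_neg]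
      congr 1
      unfold EE
      rw [← integral_neg]
      apply integral_congr_ae
      refine ae_of_all _ fun ξ => ?_
      simp only
      ring
    rw [h3]
    refine (EE_le _ y).trans ?_
    have h4 : Measurable fun p : ℝ × ℝ =>
        g (p.1, p.2) - (g (p.1, -1) + ∑ l ∈ Finset.range L, DD g l p.1 p.2) := by
      apply Measurable.sub hg
      apply Measurable.add
      · exact hg.comp (by fun_prop : Measurable fun p : ℝ × ℝ => ((p.1, -1) : ℝ × ℝ))
      · exact Finset.measurable_sum _ fun l _ => DD_meas hg l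
    have h5 := I1_mul hs (t := fun ξ => g (ξ i, ξ j) -
      (g (ξ i, -1) + ∑ l ∈ Finset.range L, DD g l (ξ i) (ξ j)))
      (h4.comp (by fun_prop : Measurable fun ξ : Fin n → ℝ => ((ξ i, ξ j) : ℝ × ℝ)))
      (cube2 hij (Φ := fun p => ‖g (p.1, p.2) -
        (g (p.1, -1) + ∑ l ∈ Finset.range L, DD g l p.1 p.2)‖ₑ ^ 2) (h4.enorm.pow_const 2)
        fun u => rest_L2 hg (hv u) L)
    refine le_trans ?_ h5
    unfold I1
    apply lintegral_mono
    intro ξ
    simp only [hf, hfL]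
    have h6 : s ξ * (g (ξ i, ξ j) * G ξ) + -(s ξ * ((g (ξ i, -1) +
        ∑ l ∈ Finset.range L, DD g l (ξ i) (ξ j)) * G ξ)) = (s ξ * (g (ξ i, ξ j) -
        (g (ξ i, -1) + ∑ l ∈ Finset.range L, DD g l (ξ i) (ξ j)))) * G ξ := by ring
    rw [h6, enorm_mul]
    have h7 : ‖G ξ‖ₑ ≤ 1 := by
      rw [← ofReal_norm]
      exact ENNReal.ofReal_le_one.2 (hGb _)
    calc ‖s ξ * (g (ξ i, ξ j) -
        (g (ξ i, -1) + ∑ l ∈ Finset.range L, DD g l (ξ i) (ξ j)))‖ₑ * ‖G ξ‖ₑ ≤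
        ‖s ξ * (g (ξ i, ξ j) -
        (g (ξ i, -1) + ∑ l ∈ Finset.range L, DD g l (ξ i) (ξ j)))‖ₑ * 1 := by gcongr
      _ = _ := mul_one _
  have hI1 : I1 s ≠ ⊤ := ((I1_le s hs.le).trans_lt (ENNReal.pow_lt_top (by norm_num))).ne
  have hlim : ∀ y, Tendsto (fun L => EE (fL L) y) atTop (𝓝 (EE f y)) := by
    intro y
    rw [tendsto_iff_edist_tendsto_0]
    have h1 : Tendsto (fun L : ℕ => (I1 s) ^ (1 / 2 : ℝ) *
        ((2 : ℝ≥0∞) ^ n * ENNReal.ofReal (2 / 2 ^ L)) ^ (1 / 2 : ℝ)) atTop (𝓝 0) := by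
      have h2 : Tendsto (fun L : ℕ => ENNReal.ofReal (2 / 2 ^ L)) atTop (𝓝 0) := by
        rw [← ENNReal.ofReal_zero]
        apply ENNReal.tendsto_ofReal
        have h3 : Tendsto (fun L : ℕ => (2 : ℝ) * (1 / 2) ^ L) atTop (𝓝 (2 * 0)) :=
          (tendsto_pow_atTop_nhds_zero_of_lt_one (by norm_num) (by norm_num)).const_mul 2
        rw [mul_zero] at h3
        refine h3.congr fun L => ?_
        rw [one_div, inv_pow]
        rfl
      have h3 : Tendsto (fun L : ℕ => (2 : ℝ≥0∞) ^ n * ENNReal.ofReal (2 / 2 ^ L)) atTop (𝓝 0) := by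
        have := ENNReal.Tendsto.const_mul (a := (2 : ℝ≥0∞) ^ n) h2
          (Or.inr (ENNReal.pow_ne_top (by norm_num)))
        rwa [mul_zero] at this
      have h4 : Tendsto (fun L : ℕ => ((2 : ℝ≥0∞) ^ n * ENNReal.ofReal (2 / 2 ^ L)) ^ (1 / 2 : ℝ))
          atTop (𝓝 0) := by
        have := (ENNReal.continuous_rpow_const (y := (1 / 2 : ℝ))).tendsto 0
        rw [ENNReal.zero_rpow_of_pos (by norm_num)] at this
        exact this.comp h3
      have := ENNReal.Tendsto.const_mul (a := (I1 s) ^ (1 / 2 : ℝ)) h4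
        (Or.inr (ENNReal.rpow_ne_top_of_nonneg (by norm_num) hI1))
      rwa [mul_zero] at this
    refine tendsto_of_tendsto_of_tendsto_of_le_of_le tendsto_const_nhds h1 (fun _ => zero_le) ?_
    intro L
    simp only
    rw [edist_comm, edist_eq_enorm_sub]
    exact hdiff L y
  have hfatou : ∫⁻ y, ‖EE f y‖ₑ ^ q ≤ (C' * (I1 s) ^ (δ / 2)) ^ q := by
    have h1 : ∀ y, ‖EE f y‖ₑ ^ q = liminf (fun L => ‖EE (fL L) y‖ₑ ^ q) atTop := by
      intro y
      symm
      apply Tendsto.liminf_eq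
      exact ((ENNReal.continuous_rpow_const (y := q)).tendsto _).comp (hlim y).enorm
    simp only [h1]
    refine (lintegral_liminf_le fun L =>
      (EE_meas (hfLm L).1.stronglyMeasurable).enorm.pow_const q).trans ?_
    apply liminf_le_of_le
    · isBoundedDefault
    · intro b hb
      obtain ⟨L, hL⟩ := hb.exists
      refine hL.trans ?_
      have h2 := ENNReal.rpow_le_rpow (hunif L) hq0.le
      unfold eLpNorm' at h2
      rwa [← ENNReal.rpow_mul, one_div_mul_cancel hq0.ne', ENNReal.rpow_one] at h2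
  have hgoal : (fun ξ => s ξ * (g (ξ i, ξ j) * G ξ)) = f := rfl
  show eLpNorm' (EE fun ξ => s ξ * (g (ξ i, ξ j) * G ξ)) q volume ≤ _
  rw [hgoal]
  unfold eLpNorm'
  have h3 := ENNReal.rpow_le_rpow hfatou (by positivity : (0 : ℝ) ≤ 1 / q)
  rwa [← ENNReal.rpow_mul, mul_one_div_cancel hq0.ne', ENNReal.rpow_one] at h3

end Pool.Agent.TH277.HT
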