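import Mathlib
import Pool.Agent.TH277.HT.G
set_option autoImplicit false
set_option linter.unusedSectionVars false

/-! The main estimate for products of multilinear forms and functions of bounded `2`-variation. -/

namespace Pool.Agent.TH277.HT

open MeasureTheory Set Complex Filter Topology
open scoped ENNReal NNReal

attribute [local irreducible] PP W E1 DD

lemma good_one (n : ℕ) (hn : 2 ≤ n) (q : ℝ) (hq : 2 * ((n : ℝ) + 1) / n < q) :
    ∃ C : ℝ≥0∞, C ≠ ⊤ ∧ ∃ δ : ℝ, 0 < δ ∧ Good n q C δ fun _ => 1 := by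
  set q1 : ℝ := (q + 2 * ((n : ℝ) + 1) / n) / 2 with hq1
  have hn2 : (2 : ℝ) ≤ n := by exact_mod_cast hn
  have hn0 : (0 : ℝ) < n := by linarith
  have hc0 : 0 < 2 * ((n : ℝ) + 1) / n := by positivity
  have hq0 : 0 < q := by linarith
  have h1 : 2 * ((n : ℝ) + 1) / n < q1 := by rw [hq1]; linarith
  have h2 : q1 < q := by rw [hq1]; linarith
  obtain ⟨C, hC⟩ := base n hn q1 h1
  refine ⟨(C : ℝ≥0∞) ^ (1 / q), ENNReal.rpow_ne_top_of_nonneg (by positivity) ENNReal.coe_ne_top,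
    (q - q1) * (1 / q), by
      have : 0 < q - q1 := by linarith
      positivity, ?_⟩
  intro s hs
  simp only [mul_one]
  show eLpNorm' (EE s) q volume ≤ _
  have hm := (EE_meas hs.meas).enorm
  have h3 : ∫⁻ y, ‖EE s y‖ₑ ^ q ≤ (I1 s) ^ (q - q1) * C := by
    calc ∫⁻ y, ‖EE s y‖ₑ ^ q ≤ ∫⁻ y, (I1 s) ^ (q - q1) * ‖EE s y‖ₑ ^ q1 := by
          apply lintegral_mono
          intro y
          simp only
          have h4 : ‖EE s y‖ₑ ^ q = ‖EE s y‖ₑ ^ (q - q1) * ‖EE s y‖ₑ ^ q1 := by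
            rw [← ENNReal.rpow_add_of_nonneg _ _ (by linarith) (by linarith)]
            congr 1
            ring
          rw [h4]
          gcongr
          exact EE_le s y
      _ = (I1 s) ^ (q - q1) * ∫⁻ y, ‖EE s y‖ₑ ^ q1 := lintegral_const_mul _ (hm.pow_const q1)
      _ ≤ (I1 s) ^ (q - q1) * C := by
          gcongr
          exact hC s hs
  have h5 := ENNReal.rpow_le_rpow h3 (by positivity : (0 : ℝ) ≤ 1 / q)
  rw [ENNReal.mul_rpow_of_nonneg _ _ (by positivity), ← ENNReal.rpow_mul, mul_comm] at h5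
  unfold eLpNorm'
  exact h5

theorem good_all (n : ℕ) (hn : 2 ≤ n) (q : ℝ) (hq : 2 * ((n : ℝ) + 1) / n < q) (r : ℕ) :
    ∃ C : ℝ≥0∞, C ≠ ⊤ ∧ ∃ δ : ℝ, 0 < δ ∧ ∀ (i j : Fin r → Fin n) (g : Fin r → ℝ × ℝ → ℂ),
      (∀ p, i p ≠ j p) → (∀ p, Measurable (g p)) → (∀ p x, ‖g p x‖ ≤ 1) →
      (∀ p u, Var2 fun v => g p (u, v)) →
      Good n q C δ fun ξ => ∏ p, g p (ξ (i p), ξ (j p)) := by
  have hn2 : (2 : ℝ) ≤ n := by exact_mod_cast hn
  have hn0 : (0 : ℝ) < n := by linarith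
  have hq1 : 1 ≤ q := by
    have : 2 ≤ 2 * ((n : ℝ) + 1) / n := by
      rw [le_div_iff₀ hn0]
      linarith
    linarith
  induction r with
  | zero =>
    obtain ⟨C, hC, δ, hδ, h⟩ := good_one n hn q hq
    refine ⟨C, hC, δ, hδ, ?_⟩
    intro i j g _ _ _ _
    simp only [Finset.univ_eq_empty, Finset.prod_empty]
    exact h
  | succ r ih =>
    obtain ⟨C, hC, δ, hδ, h⟩ := ih
    obtain ⟨C', hC', h'⟩ := step n q hq1 C hC δ hδ
    refine ⟨C', hC', δ / 2, by positivity, ?_⟩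
    intro i j g hij hg hgb hv
    simp only [Fin.prod_univ_succ]
    apply h' (fun ξ => ∏ p : Fin r, g p.succ (ξ (i p.succ), ξ (j p.succ)))
    · apply Finset.measurable_prod
      intro p _
      exact (hg p.succ).comp (by fun_prop :
        Measurable fun ξ : Fin n → ℝ => ((ξ (i p.succ), ξ (j p.succ)) : ℝ × ℝ))
    · intro ξ
      rw [norm_prod]
      apply Finset.prod_le_one
      · intro p _
        exact norm_nonneg _
      · intro p _
        exact hgb _ _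
    · exact h (fun p => i p.succ) (fun p => j p.succ) (fun p => g p.succ) (fun p => hij _)
        (fun p => hg _) (fun p => hgb _) fun p => hv _
    · exact hij 0
    · exact hg 0
    · exact hgb 0
    · exact hv 0

theorem main (n : ℕ) (hn : 2 ≤ n) (q : ℝ) (hq : 2 * ((n : ℝ) + 1) / n < q) (r : ℕ) :
    ∃ C : ℝ≥0, ∀ (i j : Fin r → Fin n) (g : Fin r → ℝ × ℝ → ℂ),
      (∀ p, i p ≠ j p) → (∀ p, Measurable (g p)) → (∀ p x, ‖g p x‖ ≤ 1) →
      (∀ p u, Var2 fun v => g p (u, v)) → ∀ s : (Fin n → ℝ) → ℂ, Sch n s →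
      ∫⁻ y, ‖EE (fun ξ => s ξ * ∏ p, g p (ξ (i p), ξ (j p))) y‖ₑ ^ q ≤ C := by
  have hn2 : (2 : ℝ) ≤ n := by exact_mod_cast hn
  have hn0 : (0 : ℝ) < n := by linarith
  have hc0 : 0 < 2 * ((n : ℝ) + 1) / n := by positivity
  have hq0 : 0 < q := by linarith
  obtain ⟨C, hC, δ, hδ, h⟩ := good_all n hn q hq r
  set K : ℝ≥0∞ := (C * ((2 : ℝ≥0∞) ^ n) ^ δ) ^ q with hK
  have hKt : K ≠ ⊤ := by
    rw [hK]
    apply ENNReal.rpow_ne_top_of_nonneg hq0.le
    apply ENNReal.mul_ne_top hC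
    exact ENNReal.rpow_ne_top_of_nonneg hδ.le (ENNReal.pow_ne_top (by norm_num))
  refine ⟨K.toNNReal, ?_⟩
  intro i j g hij hg hgb hv s hs
  rw [ENNReal.coe_toNNReal hKt]
  have h1 := h i j g hij hg hgb hv s hs
  have h2 : eLpNorm' (EE fun ξ => s ξ * ∏ p, g p (ξ (i p), ξ (j p))) q volume ≤
      C * ((2 : ℝ≥0∞) ^ n) ^ δ := by
    refine h1.trans ?_
    gcongr
    exact I1_le s hs.le
  have h3 := ENNReal.rpow_le_rpow h2 hq0.le
  unfold eLpNorm' at h3
  rw [← ENNReal.rpow_mul, one_div_mul_cancel hq0.ne', ENNReal.rpow_one] at h3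
  exact h3

end Pool.Agent.TH277.HT
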